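import Pool.Agent.LibCC.Push

/-!
Encoding of instances of the comparator circuit value problem and the two restrictions of
instances.
-/

namespace Pool.Agent.LibCCV

open Relation Pool.Agent.LibCC

variable {n m : ℕ}

/-- Positions of the input bits that describe an instance of the comparator circuit value
problem with `n` source nodes and `m` comparators. -/
inductive Bit (n m : ℕ) : Type
  | link (p : Fin m × Bool) (a : Arc n m)
  | src (i : Fin n)
  | goal (a : Arc n m)

/-- The instance bits: the bit `link p a` says whether the arc `a` is the incoming arc `p` of a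
comparator, the bit `src i` is the bit carried by the `i`-th source node, and `goal a` says
whether `a` is the designated arc. -/
def encode (C : CompCircuit n m) (x : Fin n → Bool) (e : Arc n m) : Bit n m → Bool
  | .link p a => decide (C.inp p = a)
  | .src i => x i
  | .goal a => decide (e = a)

/-- The arc `a` joins two comparators, exactly one of which is among the first `k`. -/
def Crosses (C : CompCircuit n m) (k : ℕ) (a : Fin m × Bool) : Prop :=
  ∃ p : Fin m × Bool, C.inp p = Sum.inr a ∧ ¬ ((a.1 : ℕ) < k ↔ (p.1 : ℕ) < k)

/-- Every cut of the numbering is crossed by at most `w` arcs whose value differs from `b`. -/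
def ValueCutLE (C : CompCircuit n m) (v : Arc n m → Bool) (b : Bool) (w : ℕ) : Prop :=
  ∀ k : ℕ, {a : Fin m × Bool | Crosses C k a ∧ v (Sum.inr a) ≠ b}.ncard ≤ w

/-- Elimination ranking, taking into account only the arcs whose value differs from `b`: such
arcs of rank `0` form no directed path through more than `d` comparators, and for `j ≥ 1` every
connected component of the arcs of rank at most `j` has at most one such arc of rank `j`. -/
structure ValueElim (C : CompCircuit n m) (v : Arc n m → Bool) (b : Bool)
    (rank : Arc n m → ℕ) (d t : ℕ) : Prop where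
  le : ∀ e, rank e ≤ t
  base : ∃ lay : Fin m → ℕ, (∀ g, lay g < d) ∧
    ∀ g i h c, C.inp (g, i) = Sum.inr (h, c) → rank (Sum.inr (h, c)) = 0 →
      v (Sum.inr (h, c)) ≠ b → lay h < lay g
  sep : ∀ j, 0 < j → ∀ e e', rank e = j → rank e' = j → v e ≠ b → v e' ≠ b →
    ReflTransGen (Adj C (fun a => rank a ≤ j)) e e' → e = e'

/-- The numbering of the comparators is topological: arcs lead to comparators of larger
number. -/
def Topo (C : CompCircuit n m) : Prop :=
  ∀ (p a : Fin m × Bool), C.inp p = Sum.inr a → (a.1 : ℕ) < (p.1 : ℕ)

/-- Every cut of the numbering is crossed by at most `w` arcs of value `1` or by at most `w`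
arcs of value `0`. -/
def BalancedLE (C : CompCircuit n m) (v : Arc n m → Bool) (w : ℕ) : Prop :=
  ∀ k : ℕ, {f : Fin m × Bool | Crosses C k f ∧ v (Sum.inr f) = true}.ncard ≤ w ∨
    {f : Fin m × Bool | Crosses C k f ∧ v (Sum.inr f) = false}.ncard ≤ w

end Pool.Agent.LibCCV
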