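import Pool.Agent.LibCCV.Corr

/-!
Versions of the state indexed by guessed bits for the levels, verification and selection.
-/

namespace Pool.Agent.LibCCV

open Relation
open Pool.Agent.LibCC hiding St St1 St2 pushB pushB_open roundB

variable {n m : ℕ} {α : Type}

/-- Versions: one guessed bit for every level. -/
abbrev Ver (L : ℕ) : Type := Fin L → Bool

def upd {L : ℕ} (β : Ver L) (l : ℕ) (b : Bool) : Ver L := fun i => if (i : ℕ) = l then b else β i

def accV (n m : ℕ) : Acc (Bit n m) n m := accB n m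

/-- The state of a version. -/
def ver {V σ : Type} (s : V × σ → Bool) (v : V) : σ → Bool := fun t => s (v, t)

theorem ver_par {V σ τ : Type} (F : (σ → Bool) → τ → Bool) (s : V × σ → Bool) (v : V) :
    ver (par F s) v = F (ver s v) := rfl

def initV (L : ℕ) (z : Bit n m → Bool) : Ver L × St n m → Bool
  | (_, Sum.inl (Sum.inl _)) => false
  | (_, Sum.inl (Sum.inr e)) => e.isLeft
  | (_, Sum.inr (Sum.inl _)) => false
  | (β, Sum.inr (Sum.inr f)) => decide (∃ i : Fin L, (levB (i : ℕ) z f && β i) = true)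

/-- Open all arcs of level `l`. -/
def forceB (l : ℕ) (z : Bit n m → Bool) (s : St n m → Bool) : St n m → Bool
  | Sum.inl (Sum.inl e) => s (Sum.inl (Sum.inl e))
  | Sum.inl (Sum.inr (Sum.inl i)) => s (Sum.inl (Sum.inr (Sum.inl i)))
  | Sum.inl (Sum.inr (Sum.inr f)) => s (Sum.inl (Sum.inr (Sum.inr f))) || levB l z f
  | Sum.inr e => s (Sum.inr e)

/-- The equations of all comparators of the block `K` hold. -/
def okB (l : ℕ) (z : Bit n m → Bool) (s : St n m → Bool) (K : ℕ) : Bool :=
  !decide (∃ p : Fin m × Bool, (decide ((p.1 : ℕ) / 2 ^ (l + 1) = K) &&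
    bx (St.v s (Sum.inr p)) (comb p.2 (seeB (accB n m) z (St.v s) (St.o s) (St.d s) (p.1, false))
      (seeB (accB n m) z (St.v s) (St.o s) (St.d s) (p.1, true)))) = true)

theorem okB_iff {C : CompCircuit n m} {x : Fin n → Bool} {z : Bit n m → Bool}
    (hz : (accB n m).Enc C x z) (l : ℕ) (s : St n m → Bool) (K : ℕ) :
    okB l z s K = true ↔ ∀ g : Fin m, (g : ℕ) / 2 ^ (l + 1) = K →
      GateOK C (St.v s) (St.o s) (St.d s) g := by
  have hb : ∀ u v : Bool, bx u v = true ↔ ¬ u = v := fun u v => bx_iff u v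
  simp only [okB, Bool.not_eq_true', decide_eq_false_iff_not, Bool.and_eq_true,
    decide_eq_true_eq, hb, seeB_eq hz]
  constructor
  · intro h g hg c
    by_contra hcon
    exact h ⟨(g, c), hg, hcon⟩
  · rintro h ⟨⟨g, c⟩, hg, hne⟩
    exact hne (h g hg c)

/-- Choose between the two versions that differ in the bit of level `l`. -/
def selB (L l : ℕ) (z : Bit n m → Bool) (s : Ver L × St n m → Bool) : Ver L × St n m → Bool
  | (β, Sum.inl (Sum.inl (Sum.inl i))) => s (β, Sum.inl (Sum.inl (Sum.inl i)))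
  | (β, Sum.inl (Sum.inl (Sum.inr f))) =>
      (okB l z (ver s (upd β l false)) ((f.1 : ℕ) / 2 ^ (l + 1)) &&
        s (upd β l false, Sum.inl (Sum.inl (Sum.inr f)))) ||
      (!okB l z (ver s (upd β l false)) ((f.1 : ℕ) / 2 ^ (l + 1)) &&
        s (upd β l true, Sum.inl (Sum.inl (Sum.inr f))))
  | (β, Sum.inl (Sum.inr e)) => s (β, Sum.inl (Sum.inr e))
  | (β, Sum.inr e) => s (β, Sum.inr e)

/-- The processing of level `l`. -/
def stageB (L R l : ℕ) (z : Bit n m → Bool) (s : Ver L × St n m → Bool) :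
    Ver L × St n m → Bool :=
  selB L l z (par (forceB l z) (lvlG (Ver L) (accB n m) L (fun l => pickB 0 l) R l z s))

/-! ### Depth -/

theorem lev_initk {S : Type} [Fintype S] {W k : ℕ} (init : (α → Bool) → S → Bool)
    (hinit : ∀ t, FD k (fun y : α ⊕ Empty → Bool => init (fun a => y (Sum.inl a)) t))
    (hW : Fintype.card S * 2 ^ k ≤ W) :
    Lev α W (0 + k + 1) S (fun x => init x) := by
  have h0 : Lev α W 0 Empty (fun _ e => e.elim) := Lev.base
  exact Lev.formula (k := k) (γ := S)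
    (fun t (y : α ⊕ Empty → Bool) => init (fun a => y (Sum.inl a)) t) hinit hW h0

theorem fd_okB {Y : Type} {L : ℕ} (hL : Fintype.card (Arc n m) ≤ 2 ^ L)
    (hL2 : Fintype.card (Fin m × Bool) ≤ 2 ^ L) (l K : ℕ)
    (zi : Bit n m → Y) (si : St n m → Y) :
    FD (10 + 2 * L) (fun y : Y → Bool =>
      okB l (fun a => y (zi a)) (fun b => y (si b)) K) := by
  have h1 : ∀ p, FD (4 + L) (fun y : Y → Bool => seeB (accB n m) (fun a => y (zi a))
      (fun e => y (si (Sum.inl (Sum.inl e)))) (fun e => y (si (Sum.inl (Sum.inr e))))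
      (fun e => y (si (Sum.inr e))) p) := fun p => fd_seeB (accB n m) hL zi _ _ _ p
  have h2 : ∀ p : Fin m × Bool, FD (5 + L) (fun y : Y → Bool => comb p.2
      (seeB (accB n m) (fun a => y (zi a))
      (fun e => y (si (Sum.inl (Sum.inl e)))) (fun e => y (si (Sum.inl (Sum.inr e))))
      (fun e => y (si (Sum.inr e))) (p.1, false))
      (seeB (accB n m) (fun a => y (zi a))
      (fun e => y (si (Sum.inl (Sum.inl e)))) (fun e => y (si (Sum.inl (Sum.inr e))))
      (fun e => y (si (Sum.inr e))) (p.1, true))) := by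
    rintro ⟨g, c⟩
    cases c
    · exact ((h1 (g, false)).and (h1 (g, true))).mono (by omega)
    · exact ((h1 (g, false)).or (h1 (g, true))).mono (by omega)
  have h3 := FD.exists (k := 9 + L) L hL2
    (fun (p : Fin m × Bool) (y : Y → Bool) => (decide ((p.1 : ℕ) / 2 ^ (l + 1) = K) &&
      bx (y (si (Sum.inl (Sum.inl (Sum.inr p))))) (comb p.2
      (seeB (accB n m) (fun a => y (zi a))
      (fun e => y (si (Sum.inl (Sum.inl e)))) (fun e => y (si (Sum.inl (Sum.inr e))))
      (fun e => y (si (Sum.inr e))) (p.1, false))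
      (seeB (accB n m) (fun a => y (zi a))
      (fun e => y (si (Sum.inl (Sum.inl e)))) (fun e => y (si (Sum.inl (Sum.inr e))))
      (fun e => y (si (Sum.inr e))) (p.1, true)))))
    (fun p => ((FD.const (8 + L) _).and
      ((FD.bx (FD.var (5 + L) _) (h2 p)).mono (by omega))).mono (by omega))
  exact h3.neg.mono (by omega)

theorem lev_sel {L W d : ℕ} (hL : Fintype.card (Arc n m) ≤ 2 ^ L)
    (hL2 : Fintype.card (Fin m × Bool) ≤ 2 ^ L) (l : ℕ)
    (hW : Fintype.card (Ver L × St n m) * 2 ^ (13 + 2 * L) ≤ W)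
    {f : (Bit n m → Bool) → Ver L × St n m → Bool} (h : Lev (Bit n m) W d (Ver L × St n m) f) :
    Lev (Bit n m) W (d + (14 + 2 * L)) (Ver L × St n m) (fun z => selB L l z (f z)) := by
  have h1 := Lev.formula (k := 13 + 2 * L) (γ := Ver L × St n m)
    (fun t (y : Bit n m ⊕ (Ver L × St n m) → Bool) =>
      selB L l (fun a => y (Sum.inl a)) (fun b => y (Sum.inr b)) t) ?_ hW h
  · have e : d + (13 + 2 * L) + 1 = d + (14 + 2 * L) := by omega
    rw [e] at h1
    exact h1
  · rintro ⟨β, (((i | f) | e) | e)⟩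
    · exact FD.var _ _
    · have h2 := fd_okB (Y := Bit n m ⊕ (Ver L × St n m)) hL hL2 l
        ((f.1 : ℕ) / 2 ^ (l + 1)) Sum.inl (fun b => Sum.inr (upd β l false, b))
      exact (((h2.mono (by omega : 10 + 2 * L ≤ 10 + 2 * L + 1)).and (FD.var _ _)).or
        (h2.neg.and (FD.var _ _))).mono (by omega)
    · exact FD.var _ _
    · exact FD.var _ _

theorem lev_force {L W d : ℕ}
    (hL2 : Fintype.card (Fin m × Bool) ≤ 2 ^ L) (l : ℕ)
    (hW : Fintype.card (Ver L × St n m) * 2 ^ (2 + L) ≤ W)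
    {f : (Bit n m → Bool) → Ver L × St n m → Bool} (h : Lev (Bit n m) W d (Ver L × St n m) f) :
    Lev (Bit n m) W (d + (3 + L)) (Ver L × St n m) (fun z => par (forceB l z) (f z)) := by
  have h1 := lev_par (k := 2 + L) (fun z s => forceB l z s) ?_ hW h
  · have e : d + (2 + L) + 1 = d + (3 + L) := by omega
    rw [e] at h1
    exact h1
  · rintro v ((e | (i | f)) | e)
    · exact FD.var _ _
    · exact FD.var _ _
    · exact ((FD.var (1 + L) _).or (fd_levB hL2 l Sum.inl f)).mono (by omega)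
    · exact FD.var _ _

theorem lev_stage {L W d R : ℕ} (hL : Fintype.card (Arc n m) ≤ 2 ^ L)
    (hL2 : Fintype.card (Fin m × Bool) ≤ 2 ^ L) (l : ℕ)
    (hW : Fintype.card (Ver L × St n m) * 2 ^ (13 + 2 * L) ≤ W)
    (hW1 : Fintype.card (Ver L × St1 n m) * 2 ^ (8 + 2 * L) ≤ W)
    (hW2 : Fintype.card (Ver L × St2 n m) * 2 ^ (9 + L) ≤ W)
    {f : (Bit n m → Bool) → Ver L × St n m → Bool} (h : Lev (Bit n m) W d (Ver L × St n m) f) :
    Lev (Bit n m) W (d + (R * ((8 + 2 * L) + L * (L + 2) + 2 * L + 21) + (17 + 3 * L)))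
      (Ver L × St n m) (fun z => stageB L R l z (f z)) := by
  have h1 := lev_runG (κ := (8 + 2 * L) + L * (L + 2) + 2 * L + 21)
      (fun _ z s => par (V := Ver L) (pushB (accB n m) L (pickB 0 l) z) s)
      (fun _ d f hf => lev_push (accB n m) hL (pickB 0 l)
        (fun v e => fd_pickB_gen hL2 0 l Sum.inl (fun b => Sum.inr (v, b)) e)
        hW1 hW2 hf) h R
  have h2 := lev_force hL2 l (le_trans (Nat.mul_le_mul_left _
    (Nat.pow_le_pow_right (by norm_num) (by omega))) hW) h1
  have h3 := lev_sel hL hL2 l hW h2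
  have e : d + R * ((8 + 2 * L) + L * (L + 2) + 2 * L + 21) + (3 + L) + (14 + 2 * L) =
      d + (R * ((8 + 2 * L) + L * (L + 2) + 2 * L + 21) + (17 + 3 * L)) := by ring
  rw [e] at h3
  exact h3

end Pool.Agent.LibCCV
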