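import Pool.Agent.LibCCV.BalSem

/-!
The circuit family for instances in which every cut is crossed by few ones or by few zeros.
-/

namespace Pool.Agent.LibCCV

open Relation
open Pool.Agent.LibCC hiding St St1 St2 pushB pushB_open roundB

variable {n m : ℕ}

theorem exists_blockwise {C : CompCircuit n m} (hT : Topo C) {v : Arc n m → Bool} {w L : ℕ}
    (hm : m ≤ 2 ^ L) (h : BalancedLE C v w) :
    ∃ (βs : ℕ → ℕ → Bool) (a : Arc n m → Bool),
      (∀ l f, Lv C l f → a (Sum.inr f) = βs l ((f.1 : ℕ) / 2 ^ (l + 1))) ∧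
      CutErrLE C a v (L * w) := by
  classical
  have h1 : ∀ k : ℕ, ∃ b : Bool,
      {f : Fin m × Bool | Crosses C k f ∧ b ≠ v (Sum.inr f)}.ncard ≤ w := by
    intro k
    rcases h k with h1 | h1
    · refine ⟨false, le_trans (Set.ncard_le_ncard ?_ (Set.toFinite _)) h1⟩
      rintro f ⟨h2, h3⟩
      exact ⟨h2, by revert h3; cases v (Sum.inr f) <;> simp⟩
    · refine ⟨true, le_trans (Set.ncard_le_ncard ?_ (Set.toFinite _)) h1⟩
      rintro f ⟨h2, h3⟩
      exact ⟨h2, by revert h3; cases v (Sum.inr f) <;> simp⟩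
  choose bk hbk using h1
  let lev : Fin m × Bool → ℕ := fun f => if hf : ∃ l, Lv C l f then hf.choose else 0
  have hlev : ∀ l f, Lv C l f → lev f = l := by
    intro l f hf
    have hex : ∃ l, Lv C l f := ⟨l, hf⟩
    have h2 : lev f = hex.choose := dif_pos hex
    rw [h2]
    exact hex.choose_spec.unique hf
  let βs : ℕ → ℕ → Bool := fun l K => bk ((2 * K + 1) * 2 ^ l)
  refine ⟨βs, Sum.elim (fun _ => false) (fun f => βs (lev f) ((f.1 : ℕ) / 2 ^ (lev f + 1))),
    ?_, ?_⟩
  · intro l f hf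
    simp only [Sum.elim_inr]
    rw [hlev l f hf]
  · intro k
    have hsub : {e : Fin m × Bool | Crosses C k e ∧
        (Sum.elim (fun _ => false) (fun f => βs (lev f) ((f.1 : ℕ) / 2 ^ (lev f + 1))) :
          Arc n m → Bool) (Sum.inr e) ≠ v (Sum.inr e)} ⊆
        ((Finset.range L).biUnion fun l => Finset.univ.filter fun f : Fin m × Bool =>
          Crosses C ((2 * (k / 2 ^ (l + 1)) + 1) * 2 ^ l) f ∧
            bk ((2 * (k / 2 ^ (l + 1)) + 1) * 2 ^ l) ≠ v (Sum.inr f) : Finset (Fin m × Bool)) := by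
      rintro f ⟨⟨p, hp, hcr⟩, hne⟩
      have hlt := hT p f hp
      obtain ⟨l, hl, hlv⟩ := exists_level C hm p f hp
      have h2 : (f.1 : ℕ) < k ∧ k ≤ (p.1 : ℕ) := by
        by_contra hcon
        apply hcr
        constructor
        · intro h3
          by_contra h4
          exact hcon ⟨h3, not_lt.1 h4⟩
        · intro h3
          omega
      have h3 : (f.1 : ℕ) / 2 ^ (l + 1) = k / 2 ^ (l + 1) := by
        have h4 : (f.1 : ℕ) / 2 ^ (l + 1) ≤ k / 2 ^ (l + 1) := Nat.div_le_div_right h2.1.le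
        have h5 : k / 2 ^ (l + 1) ≤ (p.1 : ℕ) / 2 ^ (l + 1) := Nat.div_le_div_right h2.2
        have h6 := (hlv.spec hp).1
        omega
      have h4 := hlv.crosses
      rw [h3] at h4
      simp only [Sum.elim_inr] at hne
      rw [hlev l f hlv, h3] at hne
      simp only [Finset.coe_biUnion, Finset.coe_range, Set.mem_Iio, Finset.coe_filter,
        Finset.mem_univ, true_and, Set.mem_iUnion]
      exact ⟨l, hl, h4, hne⟩
    refine le_trans (Set.ncard_le_ncard hsub (Finset.finite_toSet _)) ?_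
    rw [Set.ncard_coe_finset]
    refine le_trans (Finset.card_biUnion_le_card_mul _ _ w ?_) ?_
    · intro l _
      rw [← ncard_filter]
      exact hbk _
    · rw [Finset.card_range]

theorem widthsV (n m : ℕ) :
    Fintype.card (Ver (Nat.log 2 (n + 2 * m + 1) + 1) × St1 n m) *
      2 ^ (8 + 2 * (Nat.log 2 (n + 2 * m + 1) + 1)) ≤ 262144 * (n + 2 * m + 1) ^ 4 ∧
    Fintype.card (Ver (Nat.log 2 (n + 2 * m + 1) + 1) × St2 n m) *
      2 ^ (9 + (Nat.log 2 (n + 2 * m + 1) + 1)) ≤ 262144 * (n + 2 * m + 1) ^ 4 ∧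
    Fintype.card (Ver (Nat.log 2 (n + 2 * m + 1) + 1) × St n m) *
      2 ^ (13 + 2 * (Nat.log 2 (n + 2 * m + 1) + 1)) ≤ 262144 * (n + 2 * m + 1) ^ 4 ∧
    2 ^ (1 + (Nat.log 2 (n + 2 * m + 1) + 1)) ≤ 262144 * (n + 2 * m + 1) ^ 4 := by
  obtain ⟨_, h2, h5, h3, h4⟩ := sizes n m
  set N := n + 2 * m with hN
  set Lg := Nat.log 2 (N + 1) + 1 with hLg
  have hV : Fintype.card (Ver Lg) = 2 ^ Lg := by
    rw [Fintype.card_fun, Fintype.card_bool, Fintype.card_fin]
  set P := 2 ^ Lg with hP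
  have h6 : P ^ 2 ≤ (2 * (N + 1)) ^ 2 := Nat.pow_le_pow_left h2 2
  have h7 : P ^ 3 ≤ (2 * (N + 1)) ^ 3 := Nat.pow_le_pow_left h2 3
  have h8 : N ≤ N + 1 := Nat.le_succ N
  have h9 : 1 ≤ (N + 1) ^ 3 := Nat.one_le_pow _ _ (Nat.succ_pos N)
  rw [Fintype.card_prod, Fintype.card_prod, Fintype.card_prod, hV, h3, h4, h5]
  refine ⟨?_, ?_, ?_, ?_⟩
  · rw [pow_add, pow_mul', ← hP]
    calc P * (4 * N) * (2 ^ 8 * P ^ 2) = P ^ 3 * (1024 * N) := by ring
      _ ≤ (2 * (N + 1)) ^ 3 * (1024 * (N + 1)) :=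
          Nat.mul_le_mul h7 (Nat.mul_le_mul_left _ h8)
      _ = 8192 * (N + 1) ^ 4 := by ring
      _ ≤ 262144 * (N + 1) ^ 4 := Nat.mul_le_mul_right _ (by norm_num)
  · rw [pow_add, ← hP]
    have h10 : 4 * N + N * N ≤ 5 * (N + 1) ^ 2 := by nlinarith
    calc P * (4 * N + N * N) * (2 ^ 9 * P) = P ^ 2 * (512 * (4 * N + N * N)) := by ring
      _ ≤ (2 * (N + 1)) ^ 2 * (512 * (5 * (N + 1) ^ 2)) :=
          Nat.mul_le_mul h6 (Nat.mul_le_mul_left _ h10)
      _ = 10240 * (N + 1) ^ 4 := by ring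
      _ ≤ 262144 * (N + 1) ^ 4 := Nat.mul_le_mul_right _ (by norm_num)
  · rw [pow_add, pow_mul', ← hP]
    calc P * (3 * N) * (2 ^ 13 * P ^ 2) = P ^ 3 * (24576 * N) := by ring
      _ ≤ (2 * (N + 1)) ^ 3 * (24576 * (N + 1)) :=
          Nat.mul_le_mul h7 (Nat.mul_le_mul_left _ h8)
      _ = 196608 * (N + 1) ^ 4 := by ring
      _ ≤ 262144 * (N + 1) ^ 4 := Nat.mul_le_mul_right _ (by norm_num)
  · rw [pow_add, ← hP]
    calc 2 ^ 1 * P ≤ 2 ^ 1 * (2 * (N + 1)) := Nat.mul_le_mul_left _ h2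
      _ = 4 * ((N + 1) * 1) := by ring
      _ ≤ 262144 * ((N + 1) * (N + 1) ^ 3) :=
          Nat.mul_le_mul (by norm_num) (Nat.mul_le_mul_left _ h9)
      _ = 262144 * (N + 1) ^ 4 := by ring

theorem partD (n m w : ℕ) :
    ∃ (B : BCircuit (Bit n m) (262144 * (n + 2 * m + 1) ^ 4))
      (o : Fin (262144 * (n + 2 * m + 1) ^ 4)),
      ∀ (C : CompCircuit n m), Topo C → ∀ (x : Fin n → Bool) (v : Arc n m → Bool),
        C.IsVal x v → BalancedLE C v w → ∀ e : Arc n m,
        B.level (encode C x e)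
          (160 * (w + 1) * (Nat.log 2 (n + 2 * m + 1) + 1) ^ 4) o = v e := by
  obtain ⟨hw1, hw2, hw4, hw3⟩ := widthsV n m
  obtain ⟨hcard, _, _, _, _⟩ := sizes n m
  set L := Nat.log 2 (n + 2 * m + 1) + 1 with hL
  have hLpos : 1 ≤ L := by omega
  have hcard2 : Fintype.card (Fin m × Bool) ≤ 2 ^ L := by
    refine le_trans ?_ hcard
    rw [Fintype.card_sum]
    omega
  have hmL : m ≤ 2 ^ L := by
    refine le_trans ?_ hcard2
    simp only [Fintype.card_prod, Fintype.card_fin, Fintype.card_bool]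
    omega
  have hLL : Fintype.card (Fin L) ≤ 2 ^ L := by
    rw [Fintype.card_fin]
    exact Nat.lt_two_pow_self.le
  have hwid : ∀ k, k ≤ 13 + 2 * L →
      Fintype.card (Ver L × St n m) * 2 ^ k ≤ 262144 * (n + 2 * m + 1) ^ 4 := fun k hk =>
    le_trans (Nat.mul_le_mul_left _ (Nat.pow_le_pow_right (by norm_num) hk)) hw4
  have hl1 := lev_initk (W := 262144 * (n + 2 * m + 1) ^ 4) (k := 1 + L + L)
    (initV (n := n) (m := m) L) (by
      rintro ⟨β, ((e | e) | (e | f))⟩
      · exact FD.const _ _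
      · exact FD.const _ _
      · exact FD.const _ _
      · have h1 : ∀ i : Fin L, FD (1 + L)
            (fun y : Bit n m ⊕ Empty → Bool => (levB (i : ℕ) (fun a => y (Sum.inl a)) f &&
              β i)) := by
          intro i
          cases hb : β i
          · refine (FD.const (1 + L) false).congr (fun y => ?_)
            rw [Bool.and_false]
          · refine (fd_levB hcard2 (i : ℕ) Sum.inl f).congr (fun y => ?_)
            rw [Bool.and_true]
        refine (FD.exists (k := 1 + L) L hLL _ h1).congr (fun y => ?_)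
        rw [Bool.eq_iff_iff]
        simp only [initV, decide_eq_true_eq]) (hwid _ (by omega))
  have hl2 := lev_rounds (accB n m) hcard (hwid _ (by omega)) hl1 2
  have hl3 := lev_runG
    (κ := (2 * (L * w) + 1) * ((8 + 2 * L) + L * (L + 2) + 2 * L + 21) + (17 + 3 * L))
    (stageB (n := n) (m := m) L (2 * (L * w) + 1))
    (fun l d f hf => lev_stage hcard hcard2 l hw4 hw1 hw2 hf) hl2 L
  obtain ⟨B, o, hB⟩ := circuit_of_lev hcard hl3 (fun _ => false) (fun a => .goal a) hw3
    (D := 160 * (w + 1) * L ^ 4) (by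
      have h1 : 1 ≤ L * L := Nat.mul_pos hLpos hLpos
      have h2 : L ≤ L * L := Nat.le_mul_of_pos_left _ hLpos
      have h3 : L * L ≤ L ^ 3 := by
        rw [pow_succ, pow_two]
        exact Nat.le_mul_of_pos_right _ hLpos
      have h3' : L ^ 3 ≤ L ^ 4 := Nat.pow_le_pow_right hLpos (by norm_num)
      have h4 : (8 + 2 * L) + L * (L + 2) + 2 * L + 21 ≤ 36 * (L * L) := by nlinarith
      have h5 : L * ((2 * (L * w) + 1) * ((8 + 2 * L) + L * (L + 2) + 2 * L + 21) +
          (17 + 3 * L)) ≤ L * ((2 * (L * w) + 1) * (36 * (L * L)) + (17 + 3 * L)) :=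
        Nat.mul_le_mul_left _ (Nat.add_le_add_right (Nat.mul_le_mul_left _ h4) _)
      have h6 : L * ((2 * (L * w) + 1) * (36 * (L * L)) + (17 + 3 * L)) =
          72 * (w * L ^ 4) + 36 * L ^ 3 + 17 * L + 3 * (L * L) := by ring
      have h7 : 160 * (w + 1) * L ^ 4 = 160 * (w * L ^ 4) + 160 * L ^ 4 := by ring
      rw [h7]
      omega)
  refine ⟨B, o, ?_⟩
  intro C hT x v hv hbal e
  rw [hB]
  obtain ⟨βs, a, ha, herr⟩ := exists_blockwise hT hmL hbal
  set z : Bit n m → Bool := encode C x e with hz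
  have hEnc : (accB n m).Enc C x z := accB_enc C x e
  set s0 : Ver L × St n m → Bool := par ((roundB (accB n m) z)^[2]) (initV L z) with hs0
  have hbase : BInv C x z L βs 0 s0 := by
    have h0 : ∀ β, _ := fun β => roundB_iterate hEnc (ver (initV L z) β) 2
    have ho : ∀ β, St.o (ver s0 β) = fun e => e.isLeft := by
      intro β
      funext e
      exact congrFun (h0 β).1 e
    have hd : ∀ β f, St.d (ver s0 β) (Sum.inr f) = dOf z β f := by
      intro β f
      exact congrFun (h0 β).2.1 (Sum.inr f)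
    have hV : ∀ β, ValD C x (St.o (ver s0 β)) (St.d (ver s0 β)) (St.v (ver s0 β)) := by
      intro β
      have h5 : St.d (ver s0 β) = St.d (ver (initV L z) β) := (h0 β).2.1
      have h6 : St.v (ver s0 β) = _ := (h0 β).2.2
      rw [ho, h5, h6]
      have h4 : St.o (ver (initV (n := n) (m := m) L z) β) = fun e => e.isLeft := rfl
      rw [h4]
      refine roundD_valD (fun _ => 0) 1 (fun _ => Nat.one_pos) ?_ _
      intro g i h c hg hr
      exact absurd hr (by simp)
    refine ⟨fun β => ⟨fun i => (hV β).source i, fun i => ?_,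
      fun a l' hl' => absurd hl' (Nat.not_lt_zero _), fun p a hp ha => ?_⟩, hd,
      fun β g _ c => (hV β).gate g c⟩
    · rw [ho]
      rfl
    · rw [ho] at ha
      exact absurd ha (by simp)
  have hinv : ∀ l, l ≤ L → BInv C x z L βs l
      (runG (stageB (n := n) (m := m) L (2 * (L * w) + 1)) z s0 l) := by
    intro l
    induction l with
    | zero => intro _; exact hbase
    | succ l ih =>
      intro hl
      rw [runG_succ]
      exact stage_inv hT hcard hmL hv ha herr (by omega) (ih (by omega))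
  have hfin := hinv L le_rfl
  set sf := ver (runG (stageB (n := n) (m := m) L (2 * (L * w) + 1)) z s0 L)
    (fun _ => false) with hsf
  have hlvf := hfin.lv (fun _ => false)
  have h4 : C.IsVal x (St.v sf) := by
    have hV : ValD C x (St.o sf) (St.d sf) (St.v sf) :=
      ⟨hlvf.src, fun g c => hfin.ok (fun _ => false) g
        (fun i hi => absurd i.isLt (not_lt.2 hi)) c⟩
    refine hV.isVal (fun p => ?_)
    rcases hp : C.inp p with i | a
    · exact hlvf.osrc i
    · obtain ⟨l, hl, hlv⟩ := exists_level C hmL p a hp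
      exact hlvf.old a l hl hlv
  have h5 := h4.unique hv
  rw [Bool.eq_iff_iff]
  simp only [decide_eq_true_eq, Bool.and_eq_true]
  have hq : ∀ a, z (.goal a) = true ↔ e = a := by
    intro a
    change decide (e = a) = true ↔ _
    simp
  rw [← h5]
  constructor
  · rintro ⟨a, ha, hr⟩
    rw [hq] at ha
    subst ha
    exact hr
  · intro hr
    exact ⟨e, (hq e).2 rfl, hr⟩

end Pool.Agent.LibCCV
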