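import Pool.Agent.LibCCV.Bal

/-!
Correctness of the machine with versions.
-/

namespace Pool.Agent.LibCCV

open Relation
open Pool.Agent.LibCC hiding St St1 St2 pushB pushB_open roundB

variable {n m : ℕ}

def dOf {L : ℕ} (z : Bit n m → Bool) (β : Ver L) (f : Fin m × Bool) : Bool :=
  decide (∃ i : Fin L, (levB (i : ℕ) z f && β i) = true)

theorem dOf_eq {C : CompCircuit n m} {x : Fin n → Bool} {e : Arc n m} {L : ℕ} (β : Ver L)
    {f : Fin m × Bool} (i : Fin L) (hf : Lv C i f) : dOf (encode C x e) β f = β i := by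
  rw [Bool.eq_iff_iff]
  simp only [dOf, decide_eq_true_eq, Bool.and_eq_true, levB_iff]
  constructor
  · rintro ⟨j, hj, hb⟩
    have h1 : j = i := Fin.ext (hj.unique hf)
    rw [h1] at hb
    exact hb
  · intro hb
    exact ⟨i, hf, hb⟩

/-- The version `β` guesses the right bits at all blocks of scale above `l` containing `g`. -/
def Right {L : ℕ} (βs : ℕ → ℕ → Bool) (l : ℕ) (g : ℕ) (β : Ver L) : Prop :=
  ∀ i : Fin L, l ≤ (i : ℕ) → β i = βs i (g / 2 ^ ((i : ℕ) + 1))

structure BInv (C : CompCircuit n m) (x : Fin n → Bool) (z : Bit n m → Bool) (L : ℕ)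
    (βs : ℕ → ℕ → Bool) (l : ℕ) (s : Ver L × St n m → Bool) : Prop where
  lv : ∀ β, LvInv C x l (ver s β)
  d : ∀ β f, St.d (ver s β) (Sum.inr f) = dOf z β f
  ok : ∀ β (g : Fin m), Right βs l g β →
    GateOK C (St.v (ver s β)) (St.o (ver s β)) (St.d (ver s β)) g

theorem force_lv {C : CompCircuit n m} {x : Fin n → Bool} {e : Arc n m} {l : ℕ}
    {s : St n m → Bool} (h : PhInv C x l s) : LvInv C x (l + 1) (forceB l (encode C x e) s) := by
  refine ⟨h.src, h.osrc, fun f l' hl' hf => ?_, fun p f hp hf => ?_⟩
  · change (St.o s (Sum.inr f) || levB l (encode C x e) f) = true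
    rcases Nat.lt_or_ge l' l with hlt | hge
    · rw [h.old f l' hlt hf]
      rfl
    · have h1 : l' = l := by omega
      subst h1
      rw [(levB_iff C x e l' f).2 hf, Bool.or_true]
  · change (St.o s (Sum.inr f) || levB l (encode C x e) f) = true at hf
    rw [Bool.or_eq_true] at hf
    rcases hf with hf | hf
    · obtain ⟨l', hl', hlv⟩ := h.new p f hp hf
      exact ⟨l', Nat.lt_succ_of_le hl', hlv⟩
    · exact ⟨l, Nat.lt_succ_self l, (levB_iff C x e l f).1 hf⟩

theorem force_gate {C : CompCircuit n m} {x : Fin n → Bool} {e : Arc n m} {l : ℕ}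
    {s : St n m → Bool} {g : Fin m}
    (hopen : ∀ b f, C.inp (g, b) = Sum.inr f → Lv C l f → St.o s (Sum.inr f) = true)
    (h : GateOK C (St.v s) (St.o s) (St.d s) g) :
    GateOK C (St.v (forceB l (encode C x e) s)) (St.o (forceB l (encode C x e) s))
      (St.d (forceB l (encode C x e) s)) g := by
  have key : ∀ b, seeD (St.v (forceB l (encode C x e) s)) (St.o (forceB l (encode C x e) s))
      (St.d (forceB l (encode C x e) s)) (C.inp (g, b)) =
      seeD (St.v s) (St.o s) (St.d s) (C.inp (g, b)) := by
    intro b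
    rcases hb : C.inp (g, b) with i | f
    · rfl
    · by_cases hlv : Lv C l f
      · have h1 := hopen b f hb hlv
        have h2 : St.o (forceB l (encode C x e) s) (Sum.inr f) = true := by
          change (St.o s (Sum.inr f) || levB l (encode C x e) f) = true
          rw [h1]
          rfl
        unfold seeD
        rw [h1, h2]
        rfl
      · have h2 : St.o (forceB l (encode C x e) s) (Sum.inr f) = St.o s (Sum.inr f) := by
          change (St.o s (Sum.inr f) || levB l (encode C x e) f) = _
          have h3 : levB l (encode C x e) f = false := by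
            by_contra hcon
            exact hlv ((levB_iff C x e l f).1 (by simpa using hcon))
          rw [h3, Bool.or_false]
        unfold seeD
        rw [h2]
        rfl
  intro c
  rw [key, key]
  exact h c

theorem upd_of_ne {L : ℕ} (β : Ver L) (l : ℕ) (b : Bool) {i : Fin L} (h : (i : ℕ) ≠ l) :
    upd β l b i = β i := by
  simp [upd, h]

theorem stage_inv {C : CompCircuit n m} (hT : Topo C) {x : Fin n → Bool} {e : Arc n m}
    {L : ℕ} (hL : Fintype.card (Arc n m) ≤ 2 ^ L) (hm : m ≤ 2 ^ L)
    {v : Arc n m → Bool} (hv : C.IsVal x v) {w : ℕ} {βs : ℕ → ℕ → Bool} {a : Arc n m → Bool}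
    (ha : ∀ l f, Lv C l f → a (Sum.inr f) = βs l ((f.1 : ℕ) / 2 ^ (l + 1)))
    (herr : CutErrLE C a v w) {l : ℕ} (hl : l < L)
    {s : Ver L × St n m → Bool} (h : BInv C x (encode C x e) L βs l s) :
    BInv C x (encode C x e) L βs (l + 1) (stageB L (2 * w + 1) l (encode C x e) s) := by
  set z := encode C x e with hzdef
  have hEnc : (accB n m).Enc C x z := accB_enc C x e
  set T : Ver L → St n m → Bool := fun β =>
    (pushB (accB n m) L (pickB 0 l) z)^[2 * w + 1] (ver s β) with hTd
  set U : Ver L → St n m → Bool := fun β => forceB l z (T β) with hUd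
  set u : Ver L × St n m → Bool := par (forceB l z)
    (lvlG (Ver L) (accB n m) L (fun l => pickB 0 l) (2 * w + 1) l z s) with hud
  have hver : ∀ β, ver u β = U β := by
    intro β
    rw [hud, ver_par, lvlG_eq, ver_par]
  have hP : ∀ s f, pickB 0 l z s f = pickB 0 l (encode C x e) s f := fun s f => rfl
  have hit : ∀ β, PhInv C x l (T β) ∧ (∀ f, St.d (T β) f = St.d (ver s β) f) ∧
      ∀ g, GateOK C (St.v (ver s β)) (St.o (ver s β)) (St.d (ver s β)) g →
        GateOK C (St.v (T β)) (St.o (T β)) (St.d (T β)) g := fun β =>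
    iterate_push hEnc hL hP (h.lv β).ph (2 * w + 1)
  have hUlv : ∀ β, LvInv C x (l + 1) (U β) := fun β => force_lv (e := e) (hit β).1
  have hUd : ∀ β f, St.d (U β) (Sum.inr f) = dOf z β f := by
    intro β f
    change St.d (T β) (Sum.inr f) = _
    rw [(hit β).2.1, h.d]
  -- the right version of a block passes the test
  have hgood : ∀ (β : Ver L) (g : Fin m), Right βs (l + 1) g β → ∀ g' : Fin m,
      (g' : ℕ) / 2 ^ (l + 1) = (g : ℕ) / 2 ^ (l + 1) →
      GateOK C (St.v (U (upd β l (βs l ((g : ℕ) / 2 ^ (l + 1))))))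
        (St.o (U (upd β l (βs l ((g : ℕ) / 2 ^ (l + 1))))))
        (St.d (U (upd β l (βs l ((g : ℕ) / 2 ^ (l + 1)))))) g' := by
    intro β g hR
    set K := (g : ℕ) / 2 ^ (l + 1) with hK
    set β' := upd β l (βs l K) with hβ'
    have hR' : ∀ g' : Fin m, (g' : ℕ) / 2 ^ (l + 1) = K → Right βs l g' β' := by
      intro g' hg' i hi
      rcases Nat.eq_or_lt_of_le hi with heq | hlt
      · have h1 : β' i = βs l K := by simp [hβ', upd, ← heq]
        rw [h1, ← heq, hg']
      · rw [hβ', upd_of_ne _ _ _ (Nat.ne_of_gt hlt), hR i hlt]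
        congr 1
        exact (div_pow_of_le (Nat.succ_le_succ hi) (hg'.trans hK)).symm
    have hS : ∀ g' : Fin m, (g' : ℕ) / 2 ^ (l + 1) = K →
        GateOK C (St.v (ver s β')) (St.o (ver s β')) (St.d (ver s β')) g' :=
      fun g' hg' => h.ok β' g' (hR' g' hg')
    have hcomp := phase_complete hT hEnc hL hm hP (h.lv β').ph (h.lv β').new hv herr K
      (fun p f hp hpK hlow => by
        rw [h.d]
        obtain ⟨l'', hl'', hlv⟩ := exists_level C hm p f hp
        have h1 : l ≤ l'' := by
          by_contra hcon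
          exact hlow l'' (not_le.1 hcon) hlv
        rw [dOf_eq β' ⟨l'', hl''⟩ hlv, ha l'' f hlv, hR' p.1 hpK ⟨l'', hl''⟩ h1]
        congr 1
        exact (hlv.spec hp).1.symm) hS
    intro g' hg'
    refine force_gate (fun b f hb hlv => ?_) ((hit β').2.2 g' (hS g' hg'))
    have h1 := (hlv.spec hb).1
    exact hcomp f hlv (h1.trans hg')
  refine ⟨fun β => ?_, fun β f => ?_, fun β g hR => ?_⟩
  · have h1 := hUlv β
    rw [← hver β] at h1
    exact ⟨h1.src, h1.osrc, h1.old, h1.new⟩
  · have h1 := hUd β f
    rw [← hver β] at h1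
    exact h1
  · set K := (g : ℕ) / 2 ^ (l + 1) with hK
    -- the selected bit
    set c : Bool := !okB l z (ver u (upd β l false)) K with hc
    have hsel : ∀ f : Fin m × Bool, (f.1 : ℕ) / 2 ^ (l + 1) = K →
        St.v (ver (stageB L (2 * w + 1) l z s) β) (Sum.inr f) =
          St.v (U (upd β l c)) (Sum.inr f) := by
      intro f hf
      change ((okB l z (ver u (upd β l false)) ((f.1 : ℕ) / 2 ^ (l + 1)) &&
        u (upd β l false, Sum.inl (Sum.inl (Sum.inr f)))) ||
        (!okB l z (ver u (upd β l false)) ((f.1 : ℕ) / 2 ^ (l + 1)) &&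
        u (upd β l true, Sum.inl (Sum.inl (Sum.inr f))))) = _
      rw [hf]
      have h1 : ∀ β', u (β', Sum.inl (Sum.inl (Sum.inr f))) = St.v (U β') (Sum.inr f) := by
        intro β'
        rw [← hver]
        rfl
      rw [h1, h1]
      by_cases hk : okB l z (ver u (upd β l false)) K = true
      · simp [hc, hk]
      · simp [hc, hk]
    have hcgood : ∀ g' : Fin m, (g' : ℕ) / 2 ^ (l + 1) = K →
        GateOK C (St.v (U (upd β l c))) (St.o (U (upd β l c))) (St.d (U (upd β l c))) g' := by
      by_cases hk : okB l z (ver u (upd β l false)) K = true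
      · have h1 : c = false := by simp [hc, hk]
        rw [h1]
        rw [hver] at hk
        exact (okB_iff hEnc l _ K).1 hk
      · have h1 : c = true := by simp [hc, hk]
        have h2 : βs l K = true := by
          by_contra hcon
          apply hk
          rw [hver, okB_iff hEnc]
          intro g' hg'
          have h3 := hgood β g hR g' hg'
          rw [Bool.not_eq_true] at hcon
          rw [← hK, hcon] at h3
          exact h3
        rw [h1]
        intro g' hg'
        have h3 := hgood β g hR g' hg'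
        rw [← hK, h2] at h3
        exact h3
    have hgc := hcgood g rfl
    have hWo : ∀ f, St.o (ver (stageB L (2 * w + 1) l z s) β) f = St.o (U β) f := by
      intro f
      rw [← hver]
      rfl
    have hWd : ∀ f, St.d (ver (stageB L (2 * w + 1) l z s) β) f = St.d (U β) f := by
      intro f
      rw [← hver]
      rfl
    have hWs : ∀ i, St.v (ver (stageB L (2 * w + 1) l z s) β) (Sum.inl i) = x i := by
      intro i
      have h1 := (hUlv β).src i
      rw [← hver] at h1
      exact h1
    have hsee : ∀ b, seeD (St.v (ver (stageB L (2 * w + 1) l z s) β))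
        (St.o (ver (stageB L (2 * w + 1) l z s) β)) (St.d (ver (stageB L (2 * w + 1) l z s) β))
        (C.inp (g, b)) = seeD (St.v (U (upd β l c))) (St.o (U (upd β l c)))
        (St.d (U (upd β l c))) (C.inp (g, b)) := by
      intro b
      rcases hb : C.inp (g, b) with i | f
      · unfold seeD
        rw [hWo, (hUlv β).osrc, (hUlv _).osrc, hWs, (hUlv _).src, if_pos rfl, if_pos rfl]
      · obtain ⟨l'', hl'', hlv⟩ := exists_level C hm (g, b) f hb
        rcases Nat.lt_or_ge l'' (l + 1) with hlt | hge
        · have h1 := (hUlv β).old f l'' hlt hlv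
          have h2 := (hUlv (upd β l c)).old f l'' hlt hlv
          unfold seeD
          rw [hWo, h1, h2, hsel f, if_pos rfl, if_pos rfl]
          exact div_pow_of_le (Nat.succ_le_of_lt hlt) (hlv.spec hb).1
        · have h1 : ∀ β', St.o (U β') (Sum.inr f) = false := by
            intro β'
            by_contra hcon
            obtain ⟨l', hl', hlv'⟩ := (hUlv β').new (g, b) f hb (by simpa using hcon)
            have := hlv'.unique hlv
            omega
          unfold seeD
          rw [hWo, h1, h1, hWd, hUd, hUd, dOf_eq β ⟨l'', hl''⟩ hlv,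
            dOf_eq (upd β l c) ⟨l'', hl''⟩ hlv, upd_of_ne _ _ _ (by
              change l'' ≠ l
              omega)]
          rfl
    intro c'
    rw [hsel (g, c') rfl, hsee, hsee]
    exact hgc c'

end Pool.Agent.LibCCV
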