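import Pool.Agent.LibCCV.Phase

/-!
Correcting an assignment that differs from the true valuation on few arcs across every cut.
-/

namespace Pool.Agent.LibCCV

open Relation
open Pool.Agent.LibCC hiding St St1 St2 pushB pushB_open roundB

variable {n m : ℕ} {α : Type}

theorem runG_par {V σ : Type} (F : (α → Bool) → (σ → Bool) → σ → Bool) (z : α → Bool)
    (s : V × σ → Bool) (R : ℕ) :
    runG (fun _ z s => par (V := V) (F z) s) z s R = par ((F z)^[R]) s := by
  induction R with
  | zero => rfl
  | succ R ih =>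
    change par (F z) (runG (fun _ z s => par (V := V) (F z) s) z s R) = _
    rw [ih]
    funext p
    simp only [par]
    rw [Function.iterate_succ_apply']

theorem runG_succ {S : Type} (G : ℕ → (α → Bool) → (S → Bool) → S → Bool) (z : α → Bool)
    (s : S → Bool) (j : ℕ) : runG G z s (j + 1) = G j z (runG G z s j) := rfl

/-- `R` rounds of pushes at level `l`. -/
def lvlG (V : Type) (A : Acc α n m) (L : ℕ)
    (P : ℕ → (α → Bool) → (St n m → Bool) → Arc n m → Bool) (R : ℕ) (l : ℕ) (z : α → Bool)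
    (s : V × St n m → Bool) : V × St n m → Bool :=
  runG (fun _ z s => par (V := V) (pushB A L (P l) z) s) z s R

theorem lvlG_eq (V : Type) (A : Acc α n m) (L : ℕ)
    (P : ℕ → (α → Bool) → (St n m → Bool) → Arc n m → Bool) (R : ℕ) (l : ℕ) (z : α → Bool)
    (s : V × St n m → Bool) :
    lvlG V A L P R l z s = par ((pushB A L (P l) z)^[R]) s :=
  runG_par (fun z s => pushB A L (P l) z s) z s R

theorem par_apply {V σ τ : Type} (F : (σ → Bool) → τ → Bool) (s : V × σ → Bool) (v : V) :
    (fun t => par F s (v, t)) = F (fun t => s (v, t)) := rfl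

/-- Invariant between levels. -/
structure LvInv (C : CompCircuit n m) (x : Fin n → Bool) (l : ℕ) (s : St n m → Bool) :
    Prop where
  src : ∀ i, St.v s (Sum.inl i) = x i
  osrc : ∀ i, St.o s (Sum.inl i) = true
  old : ∀ a l', l' < l → Lv C l' a → St.o s (Sum.inr a) = true
  new : ∀ p a, C.inp p = Sum.inr a → St.o s (Sum.inr a) = true → ∃ l', l' < l ∧ Lv C l' a

theorem LvInv.ph {C : CompCircuit n m} {x : Fin n → Bool} {l : ℕ} {s : St n m → Bool}
    (h : LvInv C x l s) : PhInv C x l s :=
  ⟨h.src, h.osrc, h.old, fun p a hp ho => by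
    obtain ⟨l', h1, h2⟩ := h.new p a hp ho
    exact ⟨l', h1.le, h2⟩⟩

def accC (n m : ℕ) : Acc (Bit n m ⊕ (Fin m × Bool)) n m where
  In p a := Sum.inl (.link p a)
  X i := Sum.inl (.src i)

def pickC (l : ℕ) (z : Bit n m ⊕ (Fin m × Bool) → Bool) (s : St n m → Bool) : Arc n m → Bool :=
  pickB 0 l (fun b => z (Sum.inl b)) s

def initC (z : Bit n m ⊕ (Fin m × Bool) → Bool) : Unit × St n m → Bool
  | (_, Sum.inl (Sum.inl _)) => false
  | (_, Sum.inl (Sum.inr e)) => e.isLeft
  | (_, Sum.inr (Sum.inl _)) => false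
  | (_, Sum.inr (Sum.inr f)) => z (Sum.inr f)

theorem fd_pickB_gen {Y : Type} {L : ℕ} (hL : Fintype.card (Fin m × Bool) ≤ 2 ^ L) (w j : ℕ)
    (zi : Bit n m → Y) (si : St n m → Y) (e : Arc n m) :
    FD (8 + 2 * L) (fun y : Y → Bool =>
      pickB w j (fun a => y (zi a)) (fun b => y (si b)) e) := by
  rcases e with i | a
  · exact FD.const _ _
  · have h1 : ∀ a : Fin m × Bool, FD (2 + L) (fun y : Y → Bool =>
        (levB (j / (w + 1)) (fun a => y (zi a)) a &&
          !y (si (Sum.inl (Sum.inr (Sum.inr a)))))) := by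
      intro a
      exact ((fd_levB hL (j / (w + 1)) zi a).and ((FD.var 0 _).neg.mono (by omega))).mono
        (by omega)
    have h3 : ∀ a : Fin m × Bool, FD 3 (fun y : Y → Bool =>
        bx (y (si (Sum.inl (Sum.inl (Sum.inr a))))) (y (si (Sum.inr (Sum.inr a)))))
        := fun a => FD.bx (FD.var 0 _) (FD.var 0 _)
    have h4 : ∀ a : Fin m × Bool, FD (4 + L) (fun y : Y → Bool =>
        ((levB (j / (w + 1)) (fun a => y (zi a)) a &&
          !y (si (Sum.inl (Sum.inr (Sum.inr a))))) &&
          bx (y (si (Sum.inl (Sum.inl (Sum.inr a)))))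
            (y (si (Sum.inr (Sum.inr a)))))) := fun a =>
      (((h1 a).mono (by omega : 2 + L ≤ 3 + L)).and ((h3 a).mono (by omega))).mono (by omega)
    have h2 := FD.exists (k := 5 + L) L hL
      (fun (a' : Fin m × Bool) (y : Y → Bool) =>
        (decide (before a' a ∧ (a'.1 : ℕ) / 2 ^ (j / (w + 1) + 1) =
            (a.1 : ℕ) / 2 ^ (j / (w + 1) + 1)) &&
        ((levB (j / (w + 1)) (fun a => y (zi a)) a' &&
          !y (si (Sum.inl (Sum.inr (Sum.inr a'))))) &&
          bx (y (si (Sum.inl (Sum.inl (Sum.inr a')))))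
            (y (si (Sum.inr (Sum.inr a')))))))
      (fun a' => ((FD.const (4 + L) _).and (h4 a')).mono (by omega))
    exact (((h1 a).mono (by omega : 2 + L ≤ 5 + L + L + 1 + 1)).and
      (((h3 a).neg.mono (by omega : 3 + 1 ≤ 5 + L + L + 1)).or h2.neg)).mono (by omega)

theorem partC (n m w : ℕ) :
    ∃ (B : BCircuit (Bit n m ⊕ (Fin m × Bool)) (4096 * (n + 2 * m + 1) ^ 3))
      (o : Fin (4096 * (n + 2 * m + 1) ^ 3)),
      ∀ (C : CompCircuit n m), Topo C → ∀ (x : Fin n → Bool) (v : Arc n m → Bool),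
        C.IsVal x v → ∀ a : Fin m × Bool → Bool,
        (∀ k : ℕ, {f : Fin m × Bool | Crosses C k f ∧ a f ≠ v (Sum.inr f)}.ncard ≤ w) →
        ∀ e : Arc n m,
        B.level (Sum.elim (encode C x e) a)
          (55 * (2 * w + 1) * (Nat.log 2 (n + 2 * m + 1) + 1) ^ 3) o = v e := by
  set L := Nat.log 2 (n + 2 * m + 1) + 1 with hL
  have hLpos : 1 ≤ L := by omega
  obtain ⟨hcard, _, _, _, _⟩ := sizes n m
  obtain ⟨hw1, hw2, hw3⟩ := widths n m
  rw [← hL] at hcard hw1 hw2 hw3
  have hWst : Fintype.card (Unit × St n m) * 2 ^ (5 + L) ≤ 4096 * (n + 2 * m + 1) ^ 3 := by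
    refine le_trans (Nat.mul_le_mul ?_ ?_) hw2
    · simp only [Fintype.card_prod, Fintype.card_sum]
      exact Nat.mul_le_mul_left _ (by omega)
    · exact Nat.pow_le_pow_right (by norm_num) (by omega)
  have hcard2 : Fintype.card (Fin m × Bool) ≤ 2 ^ L := by
    refine le_trans ?_ hcard
    rw [Fintype.card_sum]
    omega
  have hmL : m ≤ 2 ^ L := by
    refine le_trans ?_ hcard2
    simp only [Fintype.card_prod, Fintype.card_fin, Fintype.card_bool]
    omega
  have hl1 : Lev _ (4096 * (n + 2 * m + 1) ^ 3) 1 (Unit × St n m) (fun z => initC z) := by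
    refine lev_init (initC (n := n) (m := m)) ?_
      (le_trans (Nat.le_mul_of_pos_right _ (by positivity)) hWst)
    rintro ⟨_, ((e | e) | (e | e))⟩
    · exact FD.const _ _
    · exact FD.const _ _
    · exact FD.const _ _
    · exact FD.var _ _
  have hl2 := lev_rounds (accC n m) hcard hWst hl1 2
  have hl3 := lev_runG (κ := (2 * w + 1) * ((8 + 2 * L) + L * (L + 2) + 2 * L + 21))
    (lvlG Unit (accC n m) L pickC (2 * w + 1))
    (fun l d f hf => lev_runG (κ := (8 + 2 * L) + L * (L + 2) + 2 * L + 21)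
      (fun _ z s => par (V := Unit) (pushB (accC n m) L (pickC l) z) s)
      (fun _ d f hf => lev_push (accC n m) hcard (pickC l)
        (fun v e => fd_pickB_gen hcard2 0 l (fun b => Sum.inl (Sum.inl b))
          (fun b => Sum.inr (v, b)) e)
        hw1 hw2 hf) hf (2 * w + 1)) hl2 L
  obtain ⟨B, o, hB⟩ := circuit_of_lev hcard hl3 () (fun a => Sum.inl (.goal a)) hw3
    (D := 55 * (2 * w + 1) * L ^ 3) (by
      have h1 : 1 ≤ L * L := Nat.mul_pos hLpos hLpos
      have h2 : L ≤ L * L := Nat.le_mul_of_pos_left _ hLpos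
      have h3 : L * L ≤ L ^ 3 := by
        rw [pow_succ, pow_two]
        exact Nat.le_mul_of_pos_right _ hLpos
      have h4 : (8 + 2 * L) + L * (L + 2) + 2 * L + 21 ≤ 36 * (L * L) := by nlinarith
      have h5 : L * ((2 * w + 1) * ((8 + 2 * L) + L * (L + 2) + 2 * L + 21)) ≤
          L * ((2 * w + 1) * (36 * (L * L))) :=
        Nat.mul_le_mul_left _ (Nat.mul_le_mul_left _ h4)
      have h6 : L * ((2 * w + 1) * (36 * (L * L))) = 36 * ((2 * w + 1) * L ^ 3) := by ring
      have h7 : L ^ 3 ≤ (2 * w + 1) * L ^ 3 := Nat.le_mul_of_pos_left _ (by omega)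
      have h8 : 55 * (2 * w + 1) * L ^ 3 = 55 * ((2 * w + 1) * L ^ 3) := by ring
      rw [h8]
      omega)
  refine ⟨B, o, ?_⟩
  intro C hT x v hv a ha e
  rw [hB]
  set z : Bit n m ⊕ (Fin m × Bool) → Bool := Sum.elim (encode C x e) a with hz
  have hEnc : (accC n m).Enc C x z := by
    refine ⟨fun p a => ?_, fun i => rfl⟩
    change decide (C.inp p = a) = true ↔ _
    simp
  set a' : Arc n m → Bool := Sum.elim (fun _ => false) a with ha'
  have herr : CutErrLE C a' v w := ha
  have hP : ∀ l s f, pickC l z s f = pickB 0 l (encode C x e) s f := fun l s f => rfl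
  set s0 : Unit × St n m → Bool := par ((roundB (accC n m) z)^[2]) (initC z) with hs0
  set sl : ℕ → St n m → Bool := fun l t' =>
    runG (lvlG Unit (accC n m) L pickC (2 * w + 1)) z s0 l ((), t') with hsl
  have hstep : ∀ l, sl (l + 1) = (pushB (accC n m) L (pickC l) z)^[2 * w + 1] (sl l) := by
    intro l
    simp only [hsl]
    rw [runG_succ, lvlG_eq, par_apply]
  have hinv : ∀ l, LvInv C x l (sl l) ∧ (∀ f, St.d (sl l) f = a' f) ∧
      ∀ g, GateOK C (St.v (sl l)) (St.o (sl l)) (St.d (sl l)) g := by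
    intro l
    induction l with
    | zero =>
      have h0 := roundB_iterate hEnc (fun t' => initC z ((), t')) 2
      obtain ⟨h1, h2, h3⟩ := h0
      have ho : St.o (sl 0) = fun e => e.isLeft := by
        funext e
        exact congrFun h1 e
      have hd : ∀ f, St.d (sl 0) f = a' f := by
        intro f
        have h4 := congrFun h2 f
        rcases f with i | f
        · exact h4
        · exact h4
      have hV : ValD C x (St.o (sl 0)) (St.d (sl 0)) (St.v (sl 0)) := by
        have h5 : St.d (sl 0) = St.d (fun t' => initC (n := n) (m := m) z ((), t')) := h2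
        rw [ho, h5]
        change ValD C x _ _ (St.v ((roundB (accC n m) z)^[2] (fun t' => initC z ((), t'))))
        rw [h3]
        have h4 : St.o (fun t' => initC (n := n) (m := m) z ((), t')) =
            fun e => e.isLeft := rfl
        rw [h4]
        refine roundD_valD (fun _ => 0) 1 (fun _ => Nat.one_pos) ?_ _
        intro g i h c hg hr
        exact absurd hr (by simp)
      refine ⟨⟨fun i => hV.source i, fun i => ?_, fun a l' hl' => absurd hl' (Nat.not_lt_zero _),
        fun p a hp ha => ?_⟩, hd, fun g c => hV.gate g c⟩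
      · rw [ho]
        rfl
      · rw [ho] at ha
        exact absurd ha (by simp)
    | succ l ih =>
      obtain ⟨ih1, ih2, ih3⟩ := ih
      have hit := iterate_push hEnc hcard (hP l) ih1.ph (2 * w + 1)
      rw [← hstep] at hit
      obtain ⟨h1, h2, h3⟩ := hit
      refine ⟨⟨h1.src, h1.osrc, fun f l' hl' hf => ?_, fun p f hp hf => ?_⟩,
        fun f => (h2 f).trans (ih2 f), fun g => h3 g (ih3 g)⟩
      · rcases Nat.lt_or_ge l' l with hlt | hge
        · exact h1.old f l' hlt hf
        · have h4 : l' = l := by omega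
          subst h4
          have h5 := phase_complete hT hEnc hcard hmL (hP l') ih1.ph ih1.new hv herr
            ((f.1 : ℕ) / 2 ^ (l' + 1)) (fun p f _ _ _ => ih2 _) (fun g _ => ih3 g) f hf rfl
          rw [← hstep] at h5
          exact h5
      · obtain ⟨l', hl', hlv⟩ := h1.new p f hp hf
        exact ⟨l', Nat.lt_succ_of_le hl', hlv⟩
  obtain ⟨hinv1, _, hinv3⟩ := hinv L
  have h4 : C.IsVal x (St.v (sl L)) := by
    have hV : ValD C x (St.o (sl L)) (St.d (sl L)) (St.v (sl L)) :=
      ⟨hinv1.src, fun g c => hinv3 g c⟩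
    refine hV.isVal (fun p => ?_)
    rcases hp : C.inp p with i | a
    · exact hinv1.osrc i
    · obtain ⟨l, hl, hlv⟩ := exists_level C hmL p a hp
      exact hinv1.old a l hl hlv
  have h5 := h4.unique hv
  rw [Bool.eq_iff_iff]
  simp only [decide_eq_true_eq, Bool.and_eq_true]
  have hq : ∀ a, z (Sum.inl (.goal a)) = true ↔ e = a := by
    intro a
    change decide (e = a) = true ↔ _
    simp
  rw [← h5]
  constructor
  · rintro ⟨a, ha, hr⟩
    rw [hq] at ha
    subst ha
    exact hr
  · intro hr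
    exact ⟨e, (hq e).2 rfl, hr⟩

end Pool.Agent.LibCCV
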