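import Pool.Agent.LibCCV.Enc

/-!
The two circuit families: instances with an elimination ranking, instances with few marked arcs
across every cut.
-/

namespace Pool.Agent.LibCCV

open Relation
open Pool.Agent.LibCC hiding St St1 St2 pushB pushB_open roundB

variable {n m : ℕ}

theorem widths (n m : ℕ) :
    Fintype.card (Unit × St1 n m) * 2 ^ (8 + 2 * (Nat.log 2 (n + 2 * m + 1) + 1)) ≤
      4096 * (n + 2 * m + 1) ^ 3 ∧
    Fintype.card (Unit × St2 n m) * 2 ^ (9 + (Nat.log 2 (n + 2 * m + 1) + 1)) ≤
      4096 * (n + 2 * m + 1) ^ 3 ∧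
    2 ^ (1 + (Nat.log 2 (n + 2 * m + 1) + 1)) ≤ 4096 * (n + 2 * m + 1) ^ 3 := by
  obtain ⟨_, h2, _, h3, h4⟩ := sizes n m
  set N := n + 2 * m with hN
  set P := 2 ^ (Nat.log 2 (N + 1) + 1) with hP
  rw [Fintype.card_prod, Fintype.card_prod, Fintype.card_unit, one_mul, one_mul]
  refine ⟨?_, ?_, ?_⟩
  · rw [h3, pow_add, pow_mul']
    rw [← hP]
    have h5 : P ^ 2 ≤ (2 * (N + 1)) ^ 2 := Nat.pow_le_pow_left h2 2
    calc 4 * N * (2 ^ 8 * P ^ 2) ≤ 4 * N * (2 ^ 8 * (2 * (N + 1)) ^ 2) := by
          exact Nat.mul_le_mul_left _ (Nat.mul_le_mul_left _ h5)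
      _ ≤ 4096 * (N + 1) ^ 3 := by nlinarith [sq_nonneg N, Nat.zero_le N]
  · rw [h4, pow_add, ← hP]
    calc (4 * N + N * N) * (2 ^ 9 * P) ≤ (4 * N + N * N) * (2 ^ 9 * (2 * (N + 1))) := by
          exact Nat.mul_le_mul_left _ (Nat.mul_le_mul_left _ h2)
      _ ≤ 4096 * (N + 1) ^ 3 := by nlinarith [sq_nonneg N, Nat.zero_le N]
  · rw [pow_add, ← hP]
    calc 2 ^ 1 * P ≤ 2 ^ 1 * (2 * (N + 1)) := Nat.mul_le_mul_left _ h2
      _ ≤ 4096 * (N + 1) ^ 3 := by nlinarith [sq_nonneg N, Nat.zero_le N]

/-! ### Circuits with an elimination ranking -/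

def accA (n m t : ℕ) : Acc (Bit n m ⊕ Arc n m × Fin (t + 1)) n m where
  In p a := Sum.inl (.link p a)
  X i := Sum.inl (.src i)

def pickA (t j : ℕ) (z : Bit n m ⊕ Arc n m × Fin (t + 1) → Bool) (_ : St n m → Bool)
    (e : Arc n m) : Bool :=
  if h : j + 1 < t + 1 then
    z (Sum.inr (e, ⟨j + 1, h⟩)) && !z (Sum.inr (e, ⟨j, by omega⟩))
  else false

def initA (b : Bool) (t : ℕ) (z : Bit n m ⊕ Arc n m × Fin (t + 1) → Bool) :
    Unit × St n m → Bool
  | (_, Sum.inl (Sum.inl _)) => b
  | (_, Sum.inl (Sum.inr e)) => z (Sum.inr (e, 0))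
  | (_, Sum.inr _) => b

theorem partA (n m d t : ℕ) (b : Bool) :
    ∃ (B : BCircuit (Bit n m ⊕ Arc n m × Fin (t + 1)) (4096 * (n + 2 * m + 1) ^ 3))
      (o : Fin (4096 * (n + 2 * m + 1) ^ 3)),
      ∀ (C : CompCircuit n m) (rank : Arc n m → ℕ) (x : Fin n → Bool) (v : Arc n m → Bool),
        C.IsVal x v → ValueElim C v b rank d t → ∀ e : Arc n m,
        B.level (Sum.elim (encode C x e) fun p => decide (rank p.1 ≤ (p.2 : ℕ)))
          (30 * (d + 1 + t * (Nat.log 2 (n + 2 * m + 1) + 1)) *
            (Nat.log 2 (n + 2 * m + 1) + 1)) o = v e := by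
  set L := Nat.log 2 (n + 2 * m + 1) + 1 with hL
  have hLpos : 1 ≤ L := by omega
  obtain ⟨hcard, _, _, _, _⟩ := sizes n m
  obtain ⟨hw1, hw2, hw3⟩ := widths n m
  rw [← hL] at hcard hw1 hw2 hw3
  have hWst : Fintype.card (Unit × St n m) * 2 ^ (5 + L) ≤ 4096 * (n + 2 * m + 1) ^ 3 := by
    refine le_trans (Nat.mul_le_mul ?_ ?_) hw2
    · simp only [Fintype.card_prod, Fintype.card_sum]
      exact Nat.mul_le_mul_left _ (by omega)
    · exact Nat.pow_le_pow_right (by norm_num) (by omega)
  have hl1 : Lev _ (4096 * (n + 2 * m + 1) ^ 3) 1 (Unit × St n m) (fun z => initA b t z) := by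
    refine lev_init (initA (n := n) (m := m) b t) ?_
      (le_trans (Nat.le_mul_of_pos_right _ (by positivity)) hWst)
    rintro ⟨_, ((e | e) | e)⟩
    · exact FD.const _ _
    · exact FD.var _ _
    · exact FD.const _ _
  have hl2 := lev_rounds (accA n m t) hcard hWst hl1 (d + 1)
  have hl3 := lev_runG (κ := 2 + L * (L + 2) + 2 * L + 21)
    (fun j z s => par (V := Unit) (pushB (accA n m t) L (pickA t j) z) s)
    (fun j d f hf => lev_push (accA n m t) hcard (pickA t j) (by
      intro v e
      by_cases h : j + 1 < t + 1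
      · simp only [pickA, dif_pos h]
        exact (FD.var 1 _).and (FD.var 0 _).neg
      · simp only [pickA, dif_neg h]
        exact FD.const _ _)
      (le_trans (Nat.mul_le_mul_left _ (Nat.pow_le_pow_right (by norm_num) (by omega))) hw1)
      hw2 hf) hl2 t
  obtain ⟨B, o, hB⟩ := circuit_of_lev hcard hl3 () (fun a => Sum.inl (.goal a)) hw3
    (D := 30 * (d + 1 + t * L) * L) (by
      have h1 : 1 ≤ L * L := Nat.mul_pos hLpos hLpos
      have h2 : L ≤ L * L := Nat.le_mul_of_pos_left _ hLpos
      have h3 : t ≤ t * (L * L) := Nat.le_mul_of_pos_right _ h1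
      have h4 : t * L ≤ t * (L * L) := Nat.mul_le_mul_left _ h2
      have h5 : d ≤ d * L := Nat.le_mul_of_pos_right _ hLpos
      nlinarith)
  refine ⟨B, o, ?_⟩
  intro C rank x v hv hE e
  rw [hB]
  obtain ⟨lay, hlay1, hlay2⟩ := hE.base
  set z : Bit n m ⊕ Arc n m × Fin (t + 1) → Bool :=
    Sum.elim (encode C x e) fun p => decide (rank p.1 ≤ (p.2 : ℕ)) with hz
  have hEnc : (accA n m t).Enc C x z := by
    refine ⟨fun p a => ?_, fun i => rfl⟩
    change decide (C.inp p = a) = true ↔ _
    simp
  set s0 : Unit × St n m → Bool := par ((roundB (accA n m t) z)^[d + 1]) (initA b t z) with hs0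
  have hinv : ∀ j, j ≤ t →
      (∀ e, St.o (fun t' => runG (fun j z s => par (V := Unit)
        (pushB (accA n m t) L (pickA t j) z) s) z s0 j ((), t')) e = decide (rank e ≤ j)) ∧
      (∀ e, St.d (fun t' => runG (fun j z s => par (V := Unit)
        (pushB (accA n m t) L (pickA t j) z) s) z s0 j ((), t')) e = b) ∧
      ValD C x (fun e => decide (rank e ≤ j)) (fun _ => b)
        (St.v (fun t' => runG (fun j z s => par (V := Unit)
        (pushB (accA n m t) L (pickA t j) z) s) z s0 j ((), t'))) := by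
    intro j
    induction j with
    | zero =>
      intro _
      have h0 := roundB_iterate hEnc (fun t' => initA b t z ((), t')) (d + 1)
      obtain ⟨h1, h2, h3⟩ := h0
      refine ⟨fun e => ?_, fun e => ?_, ?_⟩
      · exact congrFun h1 e
      · exact congrFun h2 e
      · change ValD C x _ _ (St.v ((roundB (accA n m t) z)^[d + 1]
          (fun t' => initA b t z ((), t'))))
        rw [h3]
        have h4 : St.o (fun t' => initA b t z ((), t')) = fun e => decide (rank e ≤ 0) := rfl
        have h5 : St.d (fun t' => initA b t z ((), t')) = fun _ => b := rfl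
        have h6 : St.v (fun t' => initA b t z ((), t')) = fun _ => b := rfl
        rw [h4, h5, h6]
        refine roundD_valD_mono hv lay d hlay1 ?_
        intro g i h c hg hr hne
        exact hlay2 g i h c hg (by simpa using hr) hne
    | succ j ih =>
      intro hj
      obtain ⟨ih1, ih2, ih3⟩ := ih (by omega)
      set s : St n m → Bool := fun t' => runG (fun j z s => par (V := Unit)
        (pushB (accA n m t) L (pickA t j) z) s) z s0 j ((), t') with hs
      have hstep : (fun t' => runG (fun j z s => par (V := Unit)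
          (pushB (accA n m t) L (pickA t j) z) s) z s0 (j + 1) ((), t')) =
          pushB (accA n m t) L (pickA t j) z s := rfl
      rw [hstep]
      have hpk : ∀ e, pickA t j z s e = true ↔ rank e = j + 1 := by
        intro e
        have h : j + 1 < t + 1 := by omega
        simp only [pickA, dif_pos h]
        change (decide (rank e ≤ j + 1) && !decide (rank e ≤ j)) = true ↔ _
        simp only [Bool.and_eq_true, decide_eq_true_eq, Bool.not_eq_true',
          decide_eq_false_iff_not]
        omega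
      have ho : ∀ e, St.o (pushB (accA n m t) L (pickA t j) z s) e =
          decide (rank e ≤ j + 1) := by
        intro e
        rw [pushB_open, ih1, Bool.eq_iff_iff, Bool.or_eq_true, hpk]
        simp only [decide_eq_true_eq]
        omega
      have hd : ∀ e, St.d (pushB (accA n m t) L (pickA t j) z s) e = b := by
        intro e
        rw [pushB_d, ih2]
      refine ⟨ho, hd, ?_⟩
      have hso : St.o s = fun e => decide (rank e ≤ j) := funext ih1
      have hsd : St.d s = fun _ => b := funext ih2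
      have hval : ValD C x (St.o s) (St.d s) (St.v s) := by
        rw [hso, hsd]
        exact ih3
      have h7 := pushB_valD hEnc hcard (pickA t j) s hval
        (fun e he => by
          rw [ih1]
          rw [hpk] at he
          simp [he])
        (fun e e' he hve he' hve' hc => by
          rw [hpk] at he he'
          rw [ih2] at hve hve'
          refine hE.sep (j + 1) (by omega) e e' he he' (ih3.mono hv e hve)
            (ih3.mono hv e' hve') ?_
          have hfun : (fun a => (St.o s a || pickA t j z s a) = true) =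
              fun a => rank a ≤ j + 1 := by
            funext a
            rw [← pushB_open (accA n m t) L (pickA t j) z s a, ho]
            simp
          rw [hfun] at hc
          exact hc)
      have ho' : St.o (pushB (accA n m t) L (pickA t j) z s) =
          fun e => decide (rank e ≤ j + 1) := funext ho
      have hd' : St.d (pushB (accA n m t) L (pickA t j) z s) = fun _ => b := funext hd
      rw [ho', hd'] at h7
      exact h7
  obtain ⟨_, _, h3⟩ := hinv t le_rfl
  have h4 := h3.isVal (fun p => by simpa using hE.le (C.inp p))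
  have h5 := h4.unique hv
  rw [Bool.eq_iff_iff]
  simp only [decide_eq_true_eq, Bool.and_eq_true]
  have hq : ∀ a, z (Sum.inl (.goal a)) = true ↔ e = a := by
    intro a
    change decide (e = a) = true ↔ _
    simp
  rw [← h5]
  constructor
  · rintro ⟨a, ha, hr⟩
    rw [hq] at ha
    subst ha
    exact hr
  · intro hr
    exact ⟨e, (hq e).2 rfl, hr⟩

/-! ### Circuits of small cut width -/

def pickB (w j : ℕ) (z : Bit n m → Bool) (s : St n m → Bool) : Arc n m → Bool
  | Sum.inl _ => false
  | Sum.inr a => (levB (j / (w + 1)) z a && !St.o s (Sum.inr a)) &&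
      (!bx (St.v s (Sum.inr a)) (St.d s (Sum.inr a)) ||
      !decide (∃ a' : Fin m × Bool,
        (decide (before a' a ∧ (a'.1 : ℕ) / 2 ^ (j / (w + 1) + 1) =
            (a.1 : ℕ) / 2 ^ (j / (w + 1) + 1)) &&
          ((levB (j / (w + 1)) z a' && !St.o s (Sum.inr a')) &&
            bx (St.v s (Sum.inr a')) (St.d s (Sum.inr a')))) = true))

theorem pickB_iff (C : CompCircuit n m) (x : Fin n → Bool) (e : Arc n m) (w j : ℕ)
    (s : St n m → Bool) (a : Fin m × Bool) :
    pickB w j (encode C x e) s (Sum.inr a) = true ↔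
      Lv C (j / (w + 1)) a ∧ St.o s (Sum.inr a) = false ∧
      (St.v s (Sum.inr a) = St.d s (Sum.inr a) ∨
        ∀ a', before a' a → (a'.1 : ℕ) / 2 ^ (j / (w + 1) + 1) =
            (a.1 : ℕ) / 2 ^ (j / (w + 1) + 1) →
          ¬ (Lv C (j / (w + 1)) a' ∧ St.o s (Sum.inr a') = false ∧
            St.v s (Sum.inr a') ≠ St.d s (Sum.inr a'))) := by
  simp only [pickB, Bool.and_eq_true, levB_iff, Bool.or_eq_true, Bool.not_eq_true',
    decide_eq_false_iff_not, decide_eq_true_eq, bx_iff]
  have hb : ∀ u v : Bool, bx u v = false ↔ u = v := by decide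
  rw [hb]
  constructor
  · rintro ⟨⟨h1, h2⟩, h3⟩
    refine ⟨h1, h2, ?_⟩
    rcases h3 with h3 | h3
    · exact Or.inl h3
    · refine Or.inr fun a' ha hk hc => h3 ⟨a', ⟨ha, hk⟩, ⟨hc.1, hc.2.1⟩, hc.2.2⟩
  · rintro ⟨h1, h2, h3⟩
    refine ⟨⟨h1, h2⟩, ?_⟩
    rcases h3 with h3 | h3
    · exact Or.inl h3
    · exact Or.inr fun ⟨a', ⟨ha, hk⟩, ⟨hc1, hc2⟩, hc3⟩ => h3 a' ha hk ⟨hc1, hc2, hc3⟩

theorem fd_pickB {L : ℕ} (hL : Fintype.card (Fin m × Bool) ≤ 2 ^ L) (w j : ℕ) (v : Unit)
    (e : Arc n m) :
    FD (8 + 2 * L) (fun y : Bit n m ⊕ (Unit × St n m) → Bool =>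
      pickB w j (fun a => y (Sum.inl a)) (fun b => y (Sum.inr (v, b))) e) := by
  rcases e with i | a
  · exact FD.const _ _
  · have h1 : ∀ a : Fin m × Bool, FD (2 + L) (fun y : Bit n m ⊕ (Unit × St n m) → Bool =>
        (levB (j / (w + 1)) (fun a => y (Sum.inl a)) a &&
          !y (Sum.inr (v, Sum.inl (Sum.inr (Sum.inr a)))))) := by
      intro a
      exact ((fd_levB hL (j / (w + 1)) Sum.inl a).and ((FD.var 0 _).neg.mono (by omega))).mono
        (by omega)
    have h3 : ∀ a : Fin m × Bool, FD 3 (fun y : Bit n m ⊕ (Unit × St n m) → Bool =>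
        bx (y (Sum.inr (v, Sum.inl (Sum.inl (Sum.inr a))))) (y (Sum.inr (v, Sum.inr (Sum.inr a)))))
        := fun a => FD.bx (FD.var 0 _) (FD.var 0 _)
    have h4 : ∀ a : Fin m × Bool, FD (4 + L) (fun y : Bit n m ⊕ (Unit × St n m) → Bool =>
        ((levB (j / (w + 1)) (fun a => y (Sum.inl a)) a &&
          !y (Sum.inr (v, Sum.inl (Sum.inr (Sum.inr a))))) &&
          bx (y (Sum.inr (v, Sum.inl (Sum.inl (Sum.inr a)))))
            (y (Sum.inr (v, Sum.inr (Sum.inr a)))))) := fun a =>
      (((h1 a).mono (by omega : 2 + L ≤ 3 + L)).and ((h3 a).mono (by omega))).mono (by omega)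
    have h2 := FD.exists (k := 5 + L) L hL
      (fun (a' : Fin m × Bool) (y : Bit n m ⊕ (Unit × St n m) → Bool) =>
        (decide (before a' a ∧ (a'.1 : ℕ) / 2 ^ (j / (w + 1) + 1) =
            (a.1 : ℕ) / 2 ^ (j / (w + 1) + 1)) &&
        ((levB (j / (w + 1)) (fun a => y (Sum.inl a)) a' &&
          !y (Sum.inr (v, Sum.inl (Sum.inr (Sum.inr a'))))) &&
          bx (y (Sum.inr (v, Sum.inl (Sum.inl (Sum.inr a')))))
            (y (Sum.inr (v, Sum.inr (Sum.inr a')))))))
      (fun a' => ((FD.const (4 + L) _).and (h4 a')).mono (by omega))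
    exact (((h1 a).mono (by omega : 2 + L ≤ 5 + L + L + 1 + 1)).and
      (((h3 a).neg.mono (by omega : 3 + 1 ≤ 5 + L + L + 1)).or h2.neg)).mono (by omega)

def initB (b : Bool) (_ : Bit n m → Bool) : Unit × St n m → Bool
  | (_, Sum.inl (Sum.inl _)) => b
  | (_, Sum.inl (Sum.inr e)) => e.isLeft
  | (_, Sum.inr _) => b

theorem partB (n m w : ℕ) (b : Bool) :
    ∃ (B : BCircuit (Bit n m) (4096 * (n + 2 * m + 1) ^ 3))
      (o : Fin (4096 * (n + 2 * m + 1) ^ 3)),
      ∀ (C : CompCircuit n m) (x : Fin n → Bool) (v : Arc n m → Bool),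
        C.IsVal x v → ValueCutLE C v b w → ∀ e : Arc n m,
        B.level (encode C x e) (55 * (w + 1) * (Nat.log 2 (n + 2 * m + 1) + 1) ^ 3) o = v e := by
  set L := Nat.log 2 (n + 2 * m + 1) + 1 with hL
  have hLpos : 1 ≤ L := by omega
  obtain ⟨hcard, _, _, _, _⟩ := sizes n m
  obtain ⟨hw1, hw2, hw3⟩ := widths n m
  rw [← hL] at hcard hw1 hw2 hw3
  have hWst : Fintype.card (Unit × St n m) * 2 ^ (5 + L) ≤ 4096 * (n + 2 * m + 1) ^ 3 := by
    refine le_trans (Nat.mul_le_mul ?_ ?_) hw2
    · simp only [Fintype.card_prod, Fintype.card_sum]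
      exact Nat.mul_le_mul_left _ (by omega)
    · exact Nat.pow_le_pow_right (by norm_num) (by omega)
  have hcard2 : Fintype.card (Fin m × Bool) ≤ 2 ^ L := by
    refine le_trans ?_ hcard
    rw [Fintype.card_sum]
    omega
  have hmL : m ≤ 2 ^ L := by
    refine le_trans ?_ hcard2
    simp only [Fintype.card_prod, Fintype.card_fin, Fintype.card_bool]
    omega
  have hl1 : Lev _ (4096 * (n + 2 * m + 1) ^ 3) 1 (Unit × St n m) (fun z => initB b z) := by
    refine lev_init (initB (n := n) (m := m) b) ?_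
      (le_trans (Nat.le_mul_of_pos_right _ (by positivity)) hWst)
    rintro ⟨_, ((e | e) | e)⟩
    · exact FD.const _ _
    · exact FD.const _ _
    · exact FD.const _ _
  have hl2 := lev_rounds (accB n m) hcard hWst hl1 2
  have hl3 := lev_runG (κ := (8 + 2 * L) + L * (L + 2) + 2 * L + 21)
    (fun j z s => par (V := Unit) (pushB (accB n m) L (pickB w j) z) s)
    (fun j d f hf => lev_push (accB n m) hcard (pickB w j) (fun v e => fd_pickB hcard2 w j v e)
      hw1 hw2 hf) hl2 (L * (w + 1))
  obtain ⟨B, o, hB⟩ := circuit_of_lev hcard hl3 () (fun a => .goal a) hw3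
    (D := 55 * (w + 1) * L ^ 3) (by
      have h1 : 1 ≤ L * L := Nat.mul_pos hLpos hLpos
      have h2 : L ≤ L * L := Nat.le_mul_of_pos_left _ hLpos
      have h3 : L * L ≤ L ^ 3 := by
        rw [pow_succ, pow_two]
        exact Nat.le_mul_of_pos_right _ hLpos
      have h4 : (8 + 2 * L) + L * (L + 2) + 2 * L + 21 ≤ 36 * (L * L) := by nlinarith
      have h5 : L * (w + 1) * ((8 + 2 * L) + L * (L + 2) + 2 * L + 21) ≤
          L * (w + 1) * (36 * (L * L)) := Nat.mul_le_mul_left _ h4
      have h6 : L * (w + 1) * (36 * (L * L)) = 36 * ((w + 1) * L ^ 3) := by ring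
      have h7 : L ^ 3 ≤ (w + 1) * L ^ 3 := Nat.le_mul_of_pos_left _ (by omega)
      have h8 : 55 * (w + 1) * L ^ 3 = 55 * ((w + 1) * L ^ 3) := by ring
      rw [h8]
      omega)
  refine ⟨B, o, ?_⟩
  intro C x v hv hC e
  rw [hB]
  set z : Bit n m → Bool := encode C x e with hz
  have hEnc : (accB n m).Enc C x z := accB_enc C x e
  set s0 : Unit × St n m → Bool := par ((roundB (accB n m) z)^[2]) (initB b z) with hs0
  set sj : ℕ → St n m → Bool := fun j t' => runG (fun j z s => par (V := Unit)
    (pushB (accB n m) L (pickB w j) z) s) z s0 j ((), t') with hsj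
  have hstep : ∀ j, sj (j + 1) = pushB (accB n m) L (pickB w j) z (sj j) := fun j => rfl
  have hpk : ∀ j s a, pickB w j z s (Sum.inr a) = true ↔
      Lv C (j / (w + 1)) a ∧ St.o s (Sum.inr a) = false ∧
      (St.v s (Sum.inr a) = St.d s (Sum.inr a) ∨
        ∀ a', before a' a → (a'.1 : ℕ) / 2 ^ (j / (w + 1) + 1) =
            (a.1 : ℕ) / 2 ^ (j / (w + 1) + 1) →
          ¬ (Lv C (j / (w + 1)) a' ∧ St.o s (Sum.inr a') = false ∧
            St.v s (Sum.inr a') ≠ St.d s (Sum.inr a'))) := fun j s a => pickB_iff C x e w j s a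
  have hopen : ∀ j a, St.o (sj (j + 1)) a = (St.o (sj j) a || pickB w j z (sj j) a) := by
    intro j a
    rw [hstep]
    exact pushB_open _ _ _ _ _ _
  have hinv : ∀ j,
      (∀ e, St.d (sj j) e = b) ∧
      ValD C x (St.o (sj j)) (fun _ => b) (St.v (sj j)) ∧
      (∀ i, St.o (sj j) (Sum.inl i) = true) ∧
      (∀ p a, C.inp p = Sum.inr a → St.o (sj j) (Sum.inr a) = true → ∃ i, i < j ∧
        (a.1 : ℕ) / 2 ^ (i / (w + 1) + 1) = (p.1 : ℕ) / 2 ^ (i / (w + 1) + 1)) := by
    intro j
    induction j with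
    | zero =>
      have h0 := roundB_iterate hEnc (fun t' => initB b z ((), t')) 2
      obtain ⟨h1, h2, h3⟩ := h0
      have ho : St.o (sj 0) = fun e => e.isLeft := by
        funext e
        exact congrFun h1 e
      refine ⟨fun e => ?_, ?_, fun i => ?_, fun p a hp ha => ?_⟩
      · exact congrFun h2 e
      · rw [ho]
        change ValD C x _ _ (St.v ((roundB (accB n m) z)^[2] (fun t' => initB b z ((), t'))))
        rw [h3]
        have h4 : St.o (fun t' => initB (n := n) (m := m) b z ((), t')) =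
            fun e => e.isLeft := rfl
        have h5 : St.d (fun t' => initB (n := n) (m := m) b z ((), t')) = fun _ => b := rfl
        have h6 : St.v (fun t' => initB (n := n) (m := m) b z ((), t')) = fun _ => b := rfl
        rw [h4, h5, h6]
        refine roundD_valD_mono hv (fun _ => 0) 1 (fun _ => Nat.one_pos) ?_
        intro g i h c hg hr hne
        exact absurd hr (by simp)
      · rw [ho]
        rfl
      · rw [ho] at ha
        exact absurd ha (by simp)
    | succ j ih =>
      obtain ⟨ih1, ih2, ih3, ih4⟩ := ih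
      have hd : ∀ e, St.d (sj (j + 1)) e = b := by
        intro e
        rw [hstep, pushB_d, ih1]
      have hsd : St.d (sj j) = fun _ => b := funext ih1
      -- block structure of the arcs opened so far
      have hblk : ∀ a, (St.o (sj j) (Sum.inr a) || pickB w j z (sj j) (Sum.inr a)) = true →
          ∀ p, C.inp p = Sum.inr a →
            (a.1 : ℕ) / 2 ^ (j / (w + 1) + 1) = (p.1 : ℕ) / 2 ^ (j / (w + 1) + 1) := by
        intro a ha p hp
        rw [Bool.or_eq_true] at ha
        rcases ha with ha | ha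
        · obtain ⟨i, hij, hi⟩ := ih4 p a hp ha
          have h1 : i / (w + 1) ≤ j / (w + 1) := Nat.div_le_div_right hij.le
          obtain ⟨q, hq⟩ := Nat.exists_eq_add_of_le h1
          have h2 : ∀ y : ℕ, y / 2 ^ (j / (w + 1) + 1) = y / 2 ^ (i / (w + 1) + 1) / 2 ^ q := by
            intro y
            rw [Nat.div_div_eq_div_mul, ← pow_add]
            congr 2
            omega
          rw [h2, h2, hi]
        · rw [hpk] at ha
          obtain ⟨p', hp', h2, _⟩ := ha.1
          have h3 : p' = p := C.inj (hp'.trans hp.symm)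
          rw [← h3]
          exact h2
      refine ⟨hd, ?_, fun i => ?_, fun p a hp ha => ?_⟩
      · have hval : ValD C x (St.o (sj j)) (St.d (sj j)) (St.v (sj j)) := by
          rw [hsd]
          exact ih2
        have h7 := pushB_valD hEnc hcard (pickB w j) (sj j) hval
          (fun e he => by
            rcases e with i | a
            · exact absurd he (by simp [pickB])
            · rw [hpk] at he
              exact he.2.1)
          (fun e e' he hve he' hve' hc => by
            rcases e with i | a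
            · exact absurd he (by simp [pickB])
            rcases e' with i' | a'
            · exact absurd he' (by simp [pickB])
            have hb := walk_block C (fun a => (St.o (sj j) a || pickB w j z (sj j) a) = true)
              (2 ^ (j / (w + 1) + 1)) hblk (a := a)
              (by simp only [he, Bool.or_true]) hc a'.1 (Or.inr ⟨a'.2, rfl⟩)
            rw [hpk] at he he'
            congr 1
            apply before_total
            · intro hlt
              rcases he'.2.2 with h | h
              · exact hve' h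
              · exact h a hlt hb.symm ⟨he.1, he.2.1, hve⟩
            · intro hlt
              rcases he.2.2 with h | h
              · exact hve h
              · exact h a' hlt hb ⟨he'.1, he'.2.1, hve'⟩)
        rw [← hstep, funext hd] at h7
        exact h7
      · rw [hopen, ih3]
        rfl
      · exact ⟨j, Nat.lt_succ_self j, hblk a (by rw [← hopen]; exact ha) p hp⟩
  have hmonoO : ∀ j k a, St.o (sj j) a = true → St.o (sj (j + k)) a = true := by
    intro j k a ha
    induction k with
    | zero => exact ha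
    | succ k ih =>
      rw [← Nat.add_assoc, hopen, ih]
      rfl
  -- counting the unopened arcs of a level in a block
  have hcount : ∀ l r, r ≤ w → ∀ K,
      (∀ a, Lv C l a → St.o (sj (l * (w + 1) + 1 + r)) (Sum.inr a) = false →
        (a.1 : ℕ) / 2 ^ (l + 1) = K → v (Sum.inr a) ≠ b) ∧
      {a : Fin m × Bool | Lv C l a ∧ St.o (sj (l * (w + 1) + 1 + r)) (Sum.inr a) = false ∧
        (a.1 : ℕ) / 2 ^ (l + 1) = K}.ncard ≤ w - r := by
    intro l r
    induction r with
    | zero =>
      intro _ K
      have hlv : l * (w + 1) / (w + 1) = l := Nat.mul_div_cancel _ (Nat.succ_pos w)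
      have hA : ∀ a, Lv C l a → St.o (sj (l * (w + 1) + 1 + 0)) (Sum.inr a) = false →
          (a.1 : ℕ) / 2 ^ (l + 1) = K → v (Sum.inr a) ≠ b := by
        intro a ha ho _
        rw [Nat.add_zero, hopen, Bool.or_eq_false_iff] at ho
        obtain ⟨hd, hval, _, _⟩ := hinv (l * (w + 1))
        refine hval.mono hv _ ?_
        intro hcon
        have h1 : pickB w (l * (w + 1)) z (sj (l * (w + 1))) (Sum.inr a) = true := by
          rw [hpk, hlv]
          exact ⟨ha, ho.1, Or.inl (hcon.trans (hd _).symm)⟩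
        rw [h1] at ho
        exact Bool.noConfusion ho.2
      refine ⟨hA, ?_⟩
      refine le_trans (Set.ncard_le_ncard ?_ (Set.toFinite _)) (hC ((2 * K + 1) * 2 ^ l))
      rintro a ⟨h1, h2, h3⟩
      refine ⟨?_, hA a h1 h2 h3⟩
      have h4 := h1.crosses
      rw [h3] at h4
      exact h4
    | succ r ih =>
      intro hr K
      obtain ⟨ih1, ih2⟩ := ih (by omega) K
      have hlv : (l * (w + 1) + 1 + r) / (w + 1) = l := by
        rw [show l * (w + 1) + 1 + r = (1 + r) + l * (w + 1) by ring,
          Nat.add_mul_div_right _ _ (Nat.succ_pos w), Nat.div_eq_of_lt (by omega), Nat.zero_add]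
      set j := l * (w + 1) + 1 + r with hj
      have hmono1 : ∀ a, St.o (sj (l * (w + 1) + 1 + (r + 1))) (Sum.inr a) = false →
          St.o (sj j) (Sum.inr a) = false ∧ pickB w j z (sj j) (Sum.inr a) = false := by
        intro a ha
        rw [← Nat.add_assoc, ← hj, hopen, Bool.or_eq_false_iff] at ha
        exact ha
      refine ⟨fun a ha ho hK => ih1 a ha (hmono1 a ho).1 hK, ?_⟩
      set T : Set (Fin m × Bool) := {a | Lv C l a ∧ St.o (sj j) (Sum.inr a) = false ∧
        (a.1 : ℕ) / 2 ^ (l + 1) = K} with hT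
      set T' : Set (Fin m × Bool) := {a | Lv C l a ∧
        St.o (sj (l * (w + 1) + 1 + (r + 1))) (Sum.inr a) = false ∧
        (a.1 : ℕ) / 2 ^ (l + 1) = K} with hT'
      have hsub : T' ⊆ T := fun a ha => ⟨ha.1, (hmono1 a ha.2.1).1, ha.2.2⟩
      by_cases hne : T.Nonempty
      · have hex : ∃ a ∈ T, pickB w j z (sj j) (Sum.inr a) = true := by
          by_cases hm : ∃ a ∈ T, St.v (sj j) (Sum.inr a) = St.d (sj j) (Sum.inr a)
          · obtain ⟨a, ha, hm⟩ := hm
            refine ⟨a, ha, ?_⟩
            rw [hpk, hlv]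
            exact ⟨ha.1, ha.2.1, Or.inl hm⟩
          · obtain ⟨a, ha, hmin⟩ := Set.exists_min_image T
              (fun a : Fin m × Bool => 2 * (a.1 : ℕ) + a.2.toNat) (Set.toFinite _) hne
            refine ⟨a, ha, ?_⟩
            rw [hpk, hlv]
            refine ⟨ha.1, ha.2.1, Or.inr ?_⟩
            rintro a' hb hK ⟨h1, h2, h3⟩
            have h4 := hmin a' ⟨h1, h2, hK.trans ha.2.2⟩
            exact absurd h4 (not_le.2 hb)
        obtain ⟨a, ha, hp⟩ := hex
        have hlt : T'.ncard < T.ncard := by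
          refine Set.ncard_lt_ncard ⟨hsub, fun h => ?_⟩ (Set.toFinite _)
          have h1 := (hmono1 a (h ha).2.1).2
          rw [h1] at hp
          exact Bool.noConfusion hp
        omega
      · have h1 : T' = ∅ := by
          rw [Set.eq_empty_iff_forall_notMem]
          exact fun a ha => hne ⟨a, hsub ha⟩
        rw [h1, Set.ncard_empty]
        exact Nat.zero_le _
  have hlevel : ∀ l, l < L → ∀ a, Lv C l a → St.o (sj (L * (w + 1))) (Sum.inr a) = true := by
    intro l hl a ha
    obtain ⟨_, h1⟩ := hcount l w le_rfl ((a.1 : ℕ) / 2 ^ (l + 1))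
    rw [Nat.sub_self, Nat.le_zero, Set.ncard_eq_zero (Set.toFinite _)] at h1
    have h2 : St.o (sj (l * (w + 1) + 1 + w)) (Sum.inr a) = true := by
      by_contra hcon
      have h3 : a ∈ (∅ : Set (Fin m × Bool)) := by
        rw [← h1]
        exact ⟨ha, by simpa using hcon, rfl⟩
      exact h3
    obtain ⟨k, hk⟩ := Nat.exists_eq_add_of_le (Nat.succ_le_of_lt hl)
    have h3 : L * (w + 1) = (l * (w + 1) + 1 + w) + k * (w + 1) := by
      rw [hk, Nat.succ_eq_add_one]
      ring
    rw [h3]
    exact hmonoO _ _ _ h2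
  obtain ⟨_, hval, hinl, _⟩ := hinv (L * (w + 1))
  have h4 : C.IsVal x (St.v (sj (L * (w + 1)))) := by
    refine hval.isVal (fun p => ?_)
    rcases hp : C.inp p with i | a
    · exact hinl i
    · obtain ⟨l, hl, hlv⟩ := exists_level C hmL p a hp
      exact hlevel l hl a hlv
  have h5 := h4.unique hv
  rw [Bool.eq_iff_iff]
  simp only [decide_eq_true_eq, Bool.and_eq_true]
  have hq : ∀ a, z (.goal a) = true ↔ e = a := by
    intro a
    change decide (e = a) = true ↔ _
    simp
  rw [← h5]
  constructor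
  · rintro ⟨a, ha, hr⟩
    rw [hq] at ha
    subst ha
    exact hr
  · intro hr
    exact ⟨e, (hq e).2 rfl, hr⟩

end Pool.Agent.LibCCV
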