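import Pool.Agent.LibCCV.Local
import Pool.Agent.LibCCV.Parts

/-!
Counting discrepancies between two assignments across the cuts of a topological numbering.
-/

namespace Pool.Agent.LibCCV

open Relation
open Pool.Agent.LibCC hiding St St1 St2 pushB pushB_open roundB

variable {n m : ℕ}

theorem ncard_filter (P : Fin m × Bool → Prop) [DecidablePred P] :
    {a | P a}.ncard = (Finset.univ.filter P).card := by
  rw [← Set.ncard_coe_finset]
  congr 1
  ext a
  simp

theorem nonexp (A B A' B' : Bool) :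
    ((if comb true A B ≠ comb true A' B' then 1 else 0) +
      (if comb false A B ≠ comb false A' B' then 1 else 0) : ℕ) ≤
    (if B ≠ B' then 1 else 0) + (if A ≠ A' then 1 else 0) := by
  revert A B A' B'
  decide

/-- Discrepancies leaving an interval of comparators are at most as many as those entering. -/
theorem inject {C : CompCircuit n m} (hT : Topo C) {x : Fin n → Bool}
    {u v O δ : Arc n m → Bool} (hv : C.IsVal x v) (hu : ∀ i, u (Sum.inl i) = x i) (s c : ℕ)
    (hg : ∀ g : Fin m, s ≤ (g : ℕ) → (g : ℕ) < c → GateOK C u O δ g)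
    (hsrc : ∀ i, O (Sum.inl i) = true)
    (hint : ∀ p a : Fin m × Bool, C.inp p = Sum.inr a → s ≤ (a.1 : ℕ) → (p.1 : ℕ) < c →
      O (Sum.inr a) = true)
    (hext : ∀ p a : Fin m × Bool, C.inp p = Sum.inr a → (a.1 : ℕ) < s → s ≤ (p.1 : ℕ) →
      (p.1 : ℕ) < c → O (Sum.inr a) = false) :
    {a : Fin m × Bool | s ≤ (a.1 : ℕ) ∧ (a.1 : ℕ) < c ∧ u (Sum.inr a) ≠ v (Sum.inr a) ∧
      ¬ ∃ p : Fin m × Bool, C.inp p = Sum.inr a ∧ (p.1 : ℕ) < c}.ncard ≤
    {a : Fin m × Bool | (a.1 : ℕ) < s ∧ δ (Sum.inr a) ≠ v (Sum.inr a) ∧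
      ∃ p : Fin m × Bool, C.inp p = Sum.inr a ∧ s ≤ (p.1 : ℕ) ∧ (p.1 : ℕ) < c}.ncard := by
  classical
  have hgate : ∀ g c, v (Sum.inr (g, c)) =
      comb c (v (C.inp (g, false))) (v (C.inp (g, true))) := by
    intro g c
    cases c
    · rw [hv.conj]; rfl
    · rw [hv.disj]; rfl
  rw [ncard_filter, ncard_filter]
  set Du : Finset (Fin m × Bool) := Finset.univ.filter fun a => s ≤ (a.1 : ℕ) ∧ (a.1 : ℕ) < c ∧
    u (Sum.inr a) ≠ v (Sum.inr a) ∧
      ¬ ∃ p : Fin m × Bool, C.inp p = Sum.inr a ∧ (p.1 : ℕ) < c with hDu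
  set Ij : Finset (Fin m × Bool) := Finset.univ.filter fun a => (a.1 : ℕ) < s ∧
    δ (Sum.inr a) ≠ v (Sum.inr a) ∧
      ∃ p : Fin m × Bool, C.inp p = Sum.inr a ∧ s ≤ (p.1 : ℕ) ∧ (p.1 : ℕ) < c with hIj
  set Dc : Finset (Fin m × Bool) := Finset.univ.filter fun a => s ≤ (a.1 : ℕ) ∧ (a.1 : ℕ) < c ∧
    u (Sum.inr a) ≠ v (Sum.inr a) ∧
      ∃ p : Fin m × Bool, C.inp p = Sum.inr a ∧ (p.1 : ℕ) < c with hDc
  set Do : Finset (Fin m × Bool) := Finset.univ.filter fun a => (s ≤ (a.1 : ℕ) ∧ (a.1 : ℕ) < c) ∧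
    u (Sum.inr a) ≠ v (Sum.inr a) with hDo
  set Di : Finset (Fin m × Bool) := Finset.univ.filter fun p => (s ≤ (p.1 : ℕ) ∧ (p.1 : ℕ) < c) ∧
    seeD u O δ (C.inp p) ≠ v (C.inp p) with hDi
  have h1 : Do.card ≤ Di.card := by
    rw [hDo, hDi, Finset.card_filter, Finset.card_filter, Fintype.sum_prod_type,
      Fintype.sum_prod_type]
    refine Finset.sum_le_sum fun g _ => ?_
    rw [Fintype.sum_bool, Fintype.sum_bool]
    by_cases hr : s ≤ (g : ℕ) ∧ (g : ℕ) < c
    · have h2 := hg g hr.1 hr.2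
      simp only [hr, true_and, and_self]
      rw [h2 true, h2 false, hgate g true, hgate g false]
      exact nonexp _ _ _ _
    · simp only [hr, false_and, if_false]
      exact le_rfl
  have h2 : Do.card = Dc.card + Du.card := by
    rw [← Finset.card_union_of_disjoint]
    · congr 1
      ext a
      simp only [hDo, hDc, hDu, Finset.mem_filter, Finset.mem_union, Finset.mem_univ, true_and]
      by_cases hc : ∃ p : Fin m × Bool, C.inp p = Sum.inr a ∧ (p.1 : ℕ) < c
      · simp only [hc, and_true, not_true, and_false, or_false, and_assoc]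
      · simp only [hc, and_true, not_false_iff, and_false, false_or, and_assoc]
    · rw [Finset.disjoint_left]
      intro a ha hb
      simp only [hDc, hDu, Finset.mem_filter] at ha hb
      exact hb.2.2.2.2 ha.2.2.2.2
  have h3 : Di.card ≤ (Dc ∪ Ij).card := by
    refine Finset.card_le_card_of_injOn
      (fun p => match C.inp p with
        | Sum.inl _ => p
        | Sum.inr a => a) ?_ ?_
    · intro p hp
      simp only [hDi, Finset.coe_filter, Finset.mem_univ, true_and, Set.mem_ofPred_eq] at hp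
      obtain ⟨⟨hp1, hp2⟩, hp3⟩ := hp
      rcases hb : C.inp p with i | a
      · exfalso
        apply hp3
        rw [hb]
        simp only [seeD, hsrc, if_true, hu, hv.source]
      · simp only [hb]
        rw [hb] at hp3
        have hlt := hT p a hb
        rw [Finset.mem_coe, Finset.mem_union]
        by_cases hs : s ≤ (a.1 : ℕ)
        · left
          have hO := hint p a hb hs hp2
          simp only [seeD, hO, if_true] at hp3
          simp only [hDc, Finset.mem_filter, Finset.mem_univ, true_and]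
          exact ⟨hs, by omega, hp3, p, hb, hp2⟩
        · right
          have hO := hext p a hb (by omega) hp1 hp2
          simp only [seeD, hO] at hp3
          simp only [hIj, Finset.mem_filter, Finset.mem_univ, true_and]
          exact ⟨by omega, by simpa using hp3, p, hb, hp1, hp2⟩
    · intro p hp q hq hpq
      simp only [hDi, Finset.coe_filter, Finset.mem_univ, true_and, Set.mem_ofPred_eq] at hp hq
      rcases hb : C.inp p with i | a
      · exfalso
        apply hp.2
        rw [hb]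
        simp only [seeD, hsrc, if_true, hu, hv.source]
      · rcases hb' : C.inp q with i | a'
        · exfalso
          apply hq.2
          rw [hb']
          simp only [seeD, hsrc, if_true, hu, hv.source]
        · simp only [hb, hb'] at hpq
          subst hpq
          exact C.inj (hb.trans hb'.symm)
  have h4 := Finset.card_union_le Dc Ij
  omega

/-! ### Levels -/

theorem Lv.spec {C : CompCircuit n m} {l : ℕ} {a p : Fin m × Bool} (h : Lv C l a)
    (hp : C.inp p = Sum.inr a) :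
    (a.1 : ℕ) / 2 ^ (l + 1) = (p.1 : ℕ) / 2 ^ (l + 1) ∧ (a.1 : ℕ) / 2 ^ l ≠ (p.1 : ℕ) / 2 ^ l := by
  obtain ⟨q, hq, h1, h2⟩ := h
  have h3 : q = p := C.inj (hq.trans hp.symm)
  subst h3
  exact ⟨h1, h2⟩

theorem div_pow_of_le {a b l l' : ℕ} (h : l ≤ l') (hab : a / 2 ^ l = b / 2 ^ l) :
    a / 2 ^ l' = b / 2 ^ l' := by
  obtain ⟨q, rfl⟩ := Nat.exists_eq_add_of_le h
  rw [pow_add, ← Nat.div_div_eq_div_mul, ← Nat.div_div_eq_div_mul, hab]

theorem Lv.unique {C : CompCircuit n m} {l l' : ℕ} {a : Fin m × Bool} (h : Lv C l a)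
    (h' : Lv C l' a) : l = l' := by
  obtain ⟨p, hp, h1, h2⟩ := h
  obtain ⟨h3, h4⟩ := h'.spec hp
  by_contra hne
  rcases Nat.lt_or_gt_of_ne hne with hlt | hlt
  · exact h4 (div_pow_of_le hlt h1)
  · exact h2 (div_pow_of_le hlt h3)

theorem Lv.halves {C : CompCircuit n m} (hT : Topo C) {l : ℕ} {a p : Fin m × Bool}
    (h : Lv C l a) (hp : C.inp p = Sum.inr a) :
    (a.1 : ℕ) / 2 ^ l = 2 * ((a.1 : ℕ) / 2 ^ (l + 1)) ∧
    (p.1 : ℕ) / 2 ^ l = 2 * ((a.1 : ℕ) / 2 ^ (l + 1)) + 1 := by
  obtain ⟨h1, h2⟩ := h.spec hp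
  have h3 := hT p a hp
  have e : ∀ y : ℕ, y / 2 ^ (l + 1) = y / 2 ^ l / 2 := by
    intro y
    rw [pow_succ, Nat.div_div_eq_div_mul]
  have h4 : (a.1 : ℕ) / 2 ^ l ≤ (p.1 : ℕ) / 2 ^ l := Nat.div_le_div_right h3.le
  rw [e, e] at h1
  rw [e]
  omega

/-- The assignment `a` differs from `v` on at most `w` arcs across every cut. -/
def CutErrLE (C : CompCircuit n m) (a v : Arc n m → Bool) (w : ℕ) : Prop :=
  ∀ k : ℕ, {e : Fin m × Bool | Crosses C k e ∧ a (Sum.inr e) ≠ v (Sum.inr e)}.ncard ≤ w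

end Pool.Agent.LibCCV
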