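import Pool.Agent.LibCCV.Run
import Pool.Agent.LibCCV.Defs

/-!
Encoding of instances, levels of arcs in the dyadic decomposition of the numbering, size
bounds.
-/

namespace Pool.Agent.LibCCV

open Relation Pool.Agent.LibCC

variable {n m : ℕ}

theorem sizes (n m : ℕ) :
    Fintype.card (Arc n m) ≤ 2 ^ (Nat.log 2 (n + 2 * m + 1) + 1) ∧
    2 ^ (Nat.log 2 (n + 2 * m + 1) + 1) ≤ 2 * (n + 2 * m + 1) ∧
    Fintype.card (St n m) = 3 * (n + 2 * m) ∧
    Fintype.card (St1 n m) = 4 * (n + 2 * m) ∧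
    Fintype.card (St2 n m) = 4 * (n + 2 * m) + (n + 2 * m) * (n + 2 * m) := by
  have h1 : Fintype.card (Arc n m) = n + 2 * m := by
    simp only [Fintype.card_sum, Fintype.card_prod, Fintype.card_fin, Fintype.card_bool]
    ring
  have h2 := Nat.lt_pow_succ_log_self (b := 2) (by norm_num) (n + 2 * m + 1)
  have h3 := Nat.pow_log_le_self 2 (x := n + 2 * m + 1) (by omega)
  refine ⟨by omega, by rw [pow_succ]; omega, ?_, ?_, ?_⟩
  · simp only [Fintype.card_sum, Fintype.card_prod, Fintype.card_fin, Fintype.card_bool]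
    ring
  · simp only [Fintype.card_sum, Fintype.card_prod, Fintype.card_fin, Fintype.card_bool]
    ring
  · simp only [Fintype.card_sum, Fintype.card_prod, Fintype.card_fin, Fintype.card_bool]
    ring

/-- Position of the instance bits. -/
def accB (n m : ℕ) : Acc (Bit n m) n m where
  In p a := .link p a
  X i := .src i

theorem accB_enc (C : CompCircuit n m) (x : Fin n → Bool) (e : Arc n m) :
    (accB n m).Enc C x (encode C x e) := by
  refine ⟨fun p a => ?_, fun i => rfl⟩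
  change decide (C.inp p = a) = true ↔ _
  simp

/-! ### Levels -/

/-- The arc joins two comparators in the same block of length `2 ^ (l + 1)` but in different
blocks of length `2 ^ l`. -/
def Lv (C : CompCircuit n m) (l : ℕ) (a : Fin m × Bool) : Prop :=
  ∃ p : Fin m × Bool, C.inp p = Sum.inr a ∧
    (a.1 : ℕ) / 2 ^ (l + 1) = (p.1 : ℕ) / 2 ^ (l + 1) ∧ (a.1 : ℕ) / 2 ^ l ≠ (p.1 : ℕ) / 2 ^ l

def levB (l : ℕ) (z : Bit n m → Bool) (a : Fin m × Bool) : Bool :=
  decide (∃ p : Fin m × Bool, (z (.link p (Sum.inr a)) &&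
    decide ((a.1 : ℕ) / 2 ^ (l + 1) = (p.1 : ℕ) / 2 ^ (l + 1) ∧
      (a.1 : ℕ) / 2 ^ l ≠ (p.1 : ℕ) / 2 ^ l)) = true)

theorem levB_iff (C : CompCircuit n m) (x : Fin n → Bool) (e : Arc n m) (l : ℕ)
    (a : Fin m × Bool) : levB l (encode C x e) a = true ↔ Lv C l a := by
  simp [levB, Lv, encode]

theorem fd_levB {Y : Type} {L : ℕ} (hL : Fintype.card (Fin m × Bool) ≤ 2 ^ L) (l : ℕ)
    (zi : Bit n m → Y) (a : Fin m × Bool) :
    FD (1 + L) (fun y : Y → Bool => levB l (fun b => y (zi b)) a) := by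
  exact FD.exists (k := 1) L hL (fun (p : Fin m × Bool) (y : Y → Bool) =>
    (y (zi (.link p (Sum.inr a))) &&
      decide ((a.1 : ℕ) / 2 ^ (l + 1) = (p.1 : ℕ) / 2 ^ (l + 1) ∧
      (a.1 : ℕ) / 2 ^ l ≠ (p.1 : ℕ) / 2 ^ l)))
    (fun _ => (FD.var 0 _).and (FD.const 0 _))

/-- Every arc between comparators has a level. -/
theorem exists_level (C : CompCircuit n m) {L : ℕ} (hm : m ≤ 2 ^ L) (p a : Fin m × Bool)
    (hp : C.inp p = Sum.inr a) : ∃ l, l < L ∧ Lv C l a := by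
  classical
  have heq : (a.1 : ℕ) ≠ (p.1 : ℕ) := by
    intro heq
    obtain ⟨ord, hord⟩ := C.acyclic
    have h1 := hord p.1 p.2 a.1 a.2 hp
    rw [Fin.ext heq] at h1
    exact lt_irrefl _ h1
  have hex : ∃ l, (a.1 : ℕ) / 2 ^ l = (p.1 : ℕ) / 2 ^ l := by
    refine ⟨L, ?_⟩
    rw [Nat.div_eq_of_lt (lt_of_lt_of_le a.1.isLt hm),
      Nat.div_eq_of_lt (lt_of_lt_of_le p.1.isLt hm)]
  have h0 : Nat.find hex ≠ 0 := by
    intro h
    have := Nat.find_spec hex
    rw [h] at this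
    simp only [pow_zero, Nat.div_one] at this
    exact heq this
  have hleL : Nat.find hex ≤ L := by
    apply Nat.find_min'
    rw [Nat.div_eq_of_lt (lt_of_lt_of_le a.1.isLt hm),
      Nat.div_eq_of_lt (lt_of_lt_of_le p.1.isLt hm)]
  obtain ⟨l, hl⟩ := Nat.exists_eq_succ_of_ne_zero h0
  have h1 : (a.1 : ℕ) / 2 ^ (l + 1) = (p.1 : ℕ) / 2 ^ (l + 1) := by
    have := Nat.find_spec hex
    rwa [hl] at this
  have h2 : (a.1 : ℕ) / 2 ^ l ≠ (p.1 : ℕ) / 2 ^ l := by
    apply Nat.find_min hex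
    rw [hl]
    exact Nat.lt_succ_self _
  exact ⟨l, by omega, p, hp, h1, h2⟩

/-- An arc of level `l` crosses the middle cut of its block. -/
theorem Lv.crosses {C : CompCircuit n m} {l : ℕ} {a : Fin m × Bool} (h : Lv C l a) :
    Crosses C ((2 * ((a.1 : ℕ) / 2 ^ (l + 1)) + 1) * 2 ^ l) a := by
  obtain ⟨p, hp, h2, h3⟩ := h
  refine ⟨p, hp, ?_⟩
  have h4 : ∀ y : ℕ, y / 2 ^ (l + 1) = (a.1 : ℕ) / 2 ^ (l + 1) →
      (y / 2 ^ l = 2 * ((a.1 : ℕ) / 2 ^ (l + 1)) ∨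
        y / 2 ^ l = 2 * ((a.1 : ℕ) / 2 ^ (l + 1)) + 1) := by
    intro y hy
    have e : ∀ y : ℕ, y / 2 ^ (l + 1) = y / 2 ^ l / 2 := by
      intro y
      rw [pow_succ, Nat.div_div_eq_div_mul]
    rw [← hy, e y]
    omega
  have h5 : ∀ y K : ℕ, y < (2 * K + 1) * 2 ^ l ↔ y / 2 ^ l < 2 * K + 1 := by
    intro y K
    rw [Nat.div_lt_iff_lt_mul (by positivity)]
  rw [h5, h5]
  have h6 := h4 _ rfl
  have h7 := h4 _ h2.symm
  omega

def before (a b : Fin m × Bool) : Prop := 2 * (a.1 : ℕ) + a.2.toNat < 2 * (b.1 : ℕ) + b.2.toNat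

instance (a b : Fin m × Bool) : Decidable (before a b) := by unfold before; infer_instance

theorem before_total {a b : Fin m × Bool} (h1 : ¬ before a b) (h2 : ¬ before b a) : a = b := by
  obtain ⟨a1, a2⟩ := a
  obtain ⟨b1, b2⟩ := b
  unfold before at h1 h2
  simp only [not_lt] at h1 h2
  have h3 : 2 * (a1 : ℕ) + a2.toNat = 2 * (b1 : ℕ) + b2.toNat := le_antisymm h2 h1
  have ha := Bool.toNat_le a2
  have hb := Bool.toNat_le b2
  have h4 : (a1 : ℕ) = b1 := by omega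
  have h5 : a2.toNat = b2.toNat := by omega
  have h6 : a2 = b2 := by
    revert h5
    cases a2 <;> cases b2 <;> simp
  rw [Fin.ext h4, h6]

/-- Walks of open arcs inside one block stay in the block. -/
theorem walk_block (C : CompCircuit n m) (P : Arc n m → Prop) (K : ℕ)
    (hP : ∀ a, P (Sum.inr a) → ∀ p, C.inp p = Sum.inr a → (a.1 : ℕ) / K = (p.1 : ℕ) / K)
    {a : Fin m × Bool} (ha : P (Sum.inr a)) {f : Arc n m}
    (hf : ReflTransGen (Adj C P) (Sum.inr a) f) :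
    ∀ g : Fin m, ((∃ b, C.inp (g, b) = f) ∨ ∃ c, f = Sum.inr (g, c)) →
        (g : ℕ) / K = (a.1 : ℕ) / K := by
  have htouch : ∀ f : Arc n m, P f → ∀ g g' : Fin m,
      ((∃ b, C.inp (g, b) = f) ∨ ∃ c, f = Sum.inr (g, c)) →
      ((∃ b, C.inp (g', b) = f) ∨ ∃ c, f = Sum.inr (g', c)) → (g : ℕ) / K = (g' : ℕ) / K := by
    intro f hf g g' h1 h2
    rcases h1 with ⟨b, hb⟩ | ⟨c, hc1⟩
    · rcases h2 with ⟨b', hb'⟩ | ⟨c', hc'⟩
      · have := C.inj (hb.trans hb'.symm)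
        rw [(Prod.mk.inj this).1]
      · subst hc'
        exact (hP (g', c') hf (g, b) hb).symm
    · subst hc1
      rcases h2 with ⟨b', hb'⟩ | ⟨c', hc'⟩
      · exact hP (g, c) hf (g', b') hb'
      · rw [(Prod.mk.inj (Sum.inr.inj hc')).1]
  induction hf with
  | refl =>
    intro g hg
    exact htouch _ ha g a.1 hg (Or.inr ⟨a.2, rfl⟩)
  | @tail b c _ hbc ih =>
    intro g hg
    obtain ⟨h1, h2, g0, h3, h4⟩ := hbc
    rw [htouch _ h2 g g0 hg h4]
    exact ih g0 h3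

end Pool.Agent.LibCCV
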