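import Pool.Agent.LibCC.Push

/-!
Opening a set of arcs of a comparator circuit when closed arcs deliver prescribed bits.
-/

namespace Pool.Agent.LibCCV

open Relation Pool.Agent.LibCC

variable {n m : ℕ}

/-- The bit seen through an arc: closed arcs deliver the prescribed bit. -/
def seeD (v O δ : Arc n m → Bool) (e : Arc n m) : Bool := if O e then v e else δ e

/-- `v` satisfies all equations when the closed arcs deliver the bits `δ`. -/
structure ValD (C : CompCircuit n m) (x : Fin n → Bool) (O δ v : Arc n m → Bool) : Prop where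
  source : ∀ i, v (Sum.inl i) = x i
  gate : ∀ g c, v (Sum.inr (g, c)) =
    comb c (seeD v O δ (C.inp (g, false))) (seeD v O δ (C.inp (g, true)))

theorem ValD.isVal {C : CompCircuit n m} {x : Fin n → Bool}
    {O δ v : Arc n m → Bool} (h : ValD C x O δ v) (hO : ∀ p, O (C.inp p) = true) :
    C.IsVal x v := by
  refine ⟨h.source, fun g => ?_, fun g => ?_⟩
  · rw [h.gate g false]; simp [comb, seeD, hO]
  · rw [h.gate g true]; simp [comb, seeD, hO]

/-- One step of the path of a token. -/
def NxtD (C : CompCircuit n m) (v O δ O' : Arc n m → Bool) (e f : Arc n m) : Prop :=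
  O' e = true ∧ ∃ g b, C.inp (g, b) = e ∧ f = Sum.inr (g, !seeD v O δ (C.inp (g, !b)))

theorem comb_flip (c a s : Bool) :
    comb c (!a) s = (comb c a s ^^ decide (c = !s)) := by
  cases c <;> cases a <;> cases s <;> rfl

theorem comb_comm (c a s : Bool) : comb c a s = comb c s a := by
  cases c <;> cases a <;> cases s <;> rfl

/-- A height function increasing along token paths. -/
theorem exists_height (C : CompCircuit n m) : ∃ ht : Arc n m → ℕ, (∀ g b, ht (C.inp (g, b)) <
    ht (Sum.inr (g, false))) ∧ ∀ g c, ht (Sum.inr (g, c)) = ht (Sum.inr (g, false)) := by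
  obtain ⟨ord, hord⟩ := C.acyclic
  refine ⟨fun e => match e with
    | Sum.inl _ => 0
    | Sum.inr (g, _) => ord g + 1, ?_, fun g c => rfl⟩
  intro g b
  rcases hb : C.inp (g, b) with i | ⟨a, c'⟩
  · exact Nat.succ_pos _
  · exact Nat.succ_lt_succ (hord g b a c' hb)

theorem pushD {C : CompCircuit n m} {x : Fin n → Bool} {O S δ v v' : Arc n m → Bool}
    (hv : ValD C x O δ v)
    (hS : ∀ e, S e = true → O e = false)
    (hsep : ∀ e e', S e = true → v e ≠ δ e → S e' = true → v e' ≠ δ e' →
      ReflTransGen (Adj C (fun a => (O a || S a) = true)) e e' → e = e')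
    (hv' : ∀ f, v' f ≠ v f ↔ ∃ e, S e = true ∧ v e ≠ δ e ∧
      TransGen (NxtD C v O δ (fun a => O a || S a)) e f) :
    ValD C x (fun a => O a || S a) δ v' := by
  classical
  set O' : Arc n m → Bool := fun a => O a || S a with hO'
  set R := NxtD C v O δ O' with hR
  obtain ⟨ht, hht1, hht2⟩ := exists_height C
  let st : Arc n m → Prop := fun e => S e = true ∧ v e ≠ δ e
  let P : Arc n m → Prop := fun f => ∃ e, st e ∧ ReflTransGen R e f
  let Q : Arc n m → Prop := fun f => O' f = true ∧ P f
  have hR1 : ∀ e f, R e f → ht e < ht f := by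
    rintro e f ⟨_, g, b, rfl, rfl⟩
    rw [hht2]
    exact hht1 g b
  have hRht : ∀ e f, ReflTransGen R e f → ht e ≤ ht f := by
    intro e f hef
    induction hef with
    | refl => exact le_rfl
    | tail _ haf ih => exact le_trans ih (hR1 _ _ haf).le
  have hTht : ∀ e f, TransGen R e f → ht e < ht f := by
    intro e f hef
    obtain ⟨c, h1, h2⟩ := TransGen.tail'_iff.1 hef
    exact lt_of_le_of_lt (hRht _ _ h1) (hR1 _ _ h2)
  have hRfun : Relator.RightUnique R := by
    intro a b c hab hac
    obtain ⟨_, g, i, hg, rfl⟩ := hab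
    obtain ⟨_, g', i', hg', rfl⟩ := hac
    have h1 : (g, i) = (g', i') := C.inj (hg.trans hg'.symm)
    obtain ⟨rfl, rfl⟩ := Prod.mk.inj h1
    rfl
  have hconn : ∀ e f, S e = true → ReflTransGen R e f → O' f = true →
      ReflTransGen (Adj C (fun a => O' a = true)) e f := by
    intro e f hSe hef
    induction hef with
    | refl => intro _; exact ReflTransGen.refl
    | @tail a f _ haf ih =>
      intro hf
      obtain ⟨hOa, g, b, hg, rfl⟩ := haf
      exact (ih hOa).tail ⟨hOa, hf, g, Or.inl ⟨b, hg⟩, Or.inr ⟨_, rfl⟩⟩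
  have hsymm : ∀ e f, ReflTransGen (Adj C (fun a => O' a = true)) e f →
      ReflTransGen (Adj C (fun a => O' a = true)) f e := by
    intro e f hef
    induction hef with
    | refl => exact ReflTransGen.refl
    | tail _ hab ih =>
      obtain ⟨h1, h2, g, h3, h4⟩ := hab
      exact ReflTransGen.head ⟨h2, h1, g, h4, h3⟩ ih
  have hnotboth : ∀ g b, Q (C.inp (g, b)) → Q (C.inp (g, !b)) → False := by
    intro g b ⟨hO1, e1, ⟨hS1, hv1⟩, hp1⟩ ⟨hO2, e2, ⟨hS2, hv2⟩, hp2⟩
    have hee : e1 = e2 := by
      apply hsep e1 e2 hS1 hv1 hS2 hv2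
      refine (hconn _ _ hS1 hp1 hO1).trans ?_
      refine ReflTransGen.head ?_ (hsymm _ _ (hconn _ _ hS2 hp2 hO2))
      exact ⟨hO1, hO2, g, Or.inl ⟨b, rfl⟩, Or.inl ⟨!b, rfl⟩⟩
    subst hee
    have hstep : ∀ b, ReflTransGen R (C.inp (g, b)) (C.inp (g, !b)) → False := by
      intro b hp
      rcases hp.cases_head with heq | ⟨c, hc, hcp⟩
      · have := C.inj heq
        simp at this
      · obtain ⟨_, g', b', hg', rfl⟩ := hc
        have h1 : (g', b') = (g, b) := C.inj hg'
        obtain ⟨rfl, rfl⟩ := Prod.mk.inj h1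
        have h2 := hRht _ _ hcp
        have h3 := hht1 g' (!b')
        rw [hht2] at h2
        omega
    rcases ReflTransGen.total_of_right_unique hRfun hp1 hp2 with h | h
    · exact hstep b h
    · have := hstep (!b)
      rw [Bool.not_not] at this
      exact this h
  -- a start arc is not reached by a nonempty path
  have hstart : ∀ e, st e → v' e = v e := by
    intro e he
    by_contra hcon
    obtain ⟨e1, hS1, hv1, hp⟩ := (hv' e).1 hcon
    have hO1 : O' e = true := by simp only [hO', he.1, Bool.or_true]
    have h1 : e1 = e := hsep e1 e hS1 hv1 he.1 he.2 (hconn _ _ hS1 hp.to_reflTransGen hO1)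
    subst h1
    exact lt_irrefl _ (hTht _ _ hp)
  have hPsplit : ∀ f, P f → st f ∨ v' f ≠ v f := by
    rintro f ⟨e, he, hp⟩
    rcases reflTransGen_iff_eq_or_transGen.1 hp with rfl | h
    · exact Or.inl he
    · exact Or.inr ((hv' f).2 ⟨e, he.1, he.2, h⟩)
  have hseeQ : ∀ e, Q e → seeD v' O' δ e = !seeD v O δ e := by
    rintro e ⟨hO1, hP⟩
    rcases hPsplit e hP with he | he
    · have h1 : seeD v O δ e = δ e := by simp [seeD, hS e he.1]
      have h2 : seeD v' O' δ e = v e := by simp [seeD, hO1, hstart e he]
      rw [h1, h2]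
      have := he.2
      revert this
      cases v e <;> cases δ e <;> simp
    · have h2 : seeD v' O' δ e = v' e := by simp [seeD, hO1]
      rw [h2]
      have h3 : seeD v O δ e = v e := by
        by_cases hOe : O e = true
        · simp [seeD, hOe]
        · have hSe : S e = true := by
            have := hO1
            simp only [hO', Bool.or_eq_true] at this
            rcases this with h | h
            · exact absurd h hOe
            · exact h
          have h4 : v e = δ e := by
            by_contra hne
            exact he (hstart e ⟨hSe, hne⟩)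
          simp [seeD, hOe, h4]
      rw [h3]
      revert he
      cases v' e <;> cases v e <;> simp
  have hseeN : ∀ e, ¬ Q e → seeD v' O' δ e = seeD v O δ e := by
    intro e hQ
    by_cases hOe : O' e = true
    · have hnP : ¬ P e := fun hP => hQ ⟨hOe, hP⟩
      have hvv : v' e = v e := by
        by_contra hcon
        obtain ⟨e1, hS1, hv1, hp⟩ := (hv' e).1 hcon
        exact hnP ⟨e1, ⟨hS1, hv1⟩, hp.to_reflTransGen⟩
      by_cases hO1 : O e = true
      · simp [seeD, hOe, hO1, hvv]
      · have hSe : S e = true := by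
          have := hOe
          simp only [hO', Bool.or_eq_true] at this
          rcases this with h | h
          · exact absurd h hO1
          · exact h
        have hve : v e = δ e := by
          by_contra hcon
          exact hnP ⟨e, ⟨hSe, hcon⟩, ReflTransGen.refl⟩
        simp [seeD, hOe, hO1, hvv, hve]
    · have h1 : O' e = false := by simpa using hOe
      have h2 : O e = false := by
        have := h1
        simp only [hO', Bool.or_eq_false_iff] at this
        exact this.1
      simp [seeD, h1, h2]
  -- which outputs change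
  have hout : ∀ g c, v' (Sum.inr (g, c)) ≠ v (Sum.inr (g, c)) ↔
      ∃ b, Q (C.inp (g, b)) ∧ c = !seeD v O δ (C.inp (g, !b)) := by
    intro g c
    rw [hv']
    constructor
    · rintro ⟨e, hSe, hve, hp⟩
      obtain ⟨a, hea, haf⟩ := TransGen.tail'_iff.1 hp
      obtain ⟨hOa, g', b, hg, hf⟩ := haf
      have h1 : (g, c) = (g', !seeD v O δ (C.inp (g', !b))) := Sum.inr.inj hf
      obtain ⟨rfl, rfl⟩ := Prod.mk.inj h1
      refine ⟨b, ?_, rfl⟩
      rw [hg]
      exact ⟨hOa, e, ⟨hSe, hve⟩, hea⟩
    · rintro ⟨b, ⟨hO1, e, he, hp⟩, rfl⟩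
      exact ⟨e, he.1, he.2, TransGen.tail'_iff.2 ⟨_, hp, hO1, g, b, rfl, rfl⟩⟩
  have hoxor : ∀ g c, v' (Sum.inr (g, c)) = (v (Sum.inr (g, c)) ^^
      decide (∃ b, Q (C.inp (g, b)) ∧ c = !seeD v O δ (C.inp (g, !b)))) := by
    intro g c
    have h := hout g c
    by_cases hex : ∃ b, Q (C.inp (g, b)) ∧ c = !seeD v O δ (C.inp (g, !b))
    · have h1 := h.2 hex
      rw [decide_eq_true hex]
      revert h1
      cases v' (Sum.inr (g, c)) <;> cases v (Sum.inr (g, c)) <;> simp
    · have h1 : v' (Sum.inr (g, c)) = v (Sum.inr (g, c)) := by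
        by_contra hcon
        exact hex (h.1 hcon)
      rw [decide_eq_false hex, h1]
      simp
  refine ⟨fun i => ?_, fun g c => ?_⟩
  · rw [← hv.source i]
    by_contra hcon
    obtain ⟨e, _, _, hp⟩ := (hv' _).1 hcon
    obtain ⟨a, _, haf⟩ := TransGen.tail'_iff.1 hp
    obtain ⟨_, g, b, _, hf⟩ := haf
    exact absurd hf (by simp)
  · rw [hoxor, hv.gate]
    by_cases hf : Q (C.inp (g, false))
    · have ht' : ¬ Q (C.inp (g, true)) := fun h => hnotboth g false hf h
      rw [hseeQ _ hf, hseeN _ ht', comb_flip]
      congr 1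
      rw [decide_eq_decide]
      constructor
      · rintro ⟨b, hb, hc⟩
        cases b
        · exact hc
        · exact absurd hb ht'
      · intro hc
        exact ⟨false, hf, hc⟩
    · by_cases ht' : Q (C.inp (g, true))
      · rw [hseeQ _ ht', hseeN _ hf, comb_comm c (seeD v O δ (C.inp (g, false))),
          comb_comm c (seeD v O δ (C.inp (g, false))), comb_flip]
        congr 1
        rw [decide_eq_decide]
        constructor
        · rintro ⟨b, hb, hc⟩
          cases b
          · exact absurd hb hf
          · exact hc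
        · intro hc
          exact ⟨true, ht', hc⟩
      · rw [hseeN _ hf, hseeN _ ht']
        have : ¬ ∃ b, Q (C.inp (g, b)) ∧ c = !seeD v O δ (C.inp (g, !b)) := by
          rintro ⟨b, hb, _⟩
          cases b
          · exact hf hb
          · exact ht' hb
        rw [decide_eq_false this]
        simp

end Pool.Agent.LibCCV
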