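import Pool.Agent.LibCC.Machine
import Pool.Agent.LibCCV.Push

/-!
The state machine opening arcs, with prescribed bits on closed arcs, and its depth and size.
All steps act in parallel on copies of the state indexed by a finite type.
-/

namespace Pool.Agent.LibCCV

open Relation Pool.Agent.LibCC

variable {n m : ℕ} {α : Type}

/-! ### Rounds of simultaneous evaluation -/

def roundD (C : CompCircuit n m) (x : Fin n → Bool) (O δ : Arc n m → Bool)
    (v : Arc n m → Bool) : Arc n m → Bool
  | Sum.inl i => x i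
  | Sum.inr (g, c) => comb c (seeD v O δ (C.inp (g, false))) (seeD v O δ (C.inp (g, true)))

theorem roundD_valD {C : CompCircuit n m} {x : Fin n → Bool} {O δ : Arc n m → Bool}
    (lay : Fin m → ℕ) (d : ℕ) (hd : ∀ g, lay g < d)
    (hlay : ∀ g b h c, C.inp (g, b) = Sum.inr (h, c) → O (Sum.inr (h, c)) = true →
      lay h < lay g) (v : Arc n m → Bool) :
    ValD C x O δ ((roundD C x O δ)^[d + 1] v) := by
  have key : ∀ k : ℕ, ∀ g, lay g < k → ∀ c,
      ((roundD C x O δ)^[k + 1] v) (Sum.inr (g, c)) =
        ((roundD C x O δ)^[k + 2] v) (Sum.inr (g, c)) := by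
    intro k
    induction k with
    | zero => intro g hg; omega
    | succ k ih =>
      intro g hg c
      rw [Function.iterate_succ_apply' (roundD C x O δ) (k + 1),
        Function.iterate_succ_apply' (roundD C x O δ) (k + 2)]
      have hin : ∀ b, seeD ((roundD C x O δ)^[k + 1] v) O δ (C.inp (g, b)) =
          seeD ((roundD C x O δ)^[k + 2] v) O δ (C.inp (g, b)) := by
        intro b
        by_cases hO : O (C.inp (g, b)) = true
        · rcases hb : C.inp (g, b) with i | ⟨a, c'⟩
          · simp only [seeD]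
            rw [Function.iterate_succ_apply' (roundD C x O δ) k,
              Function.iterate_succ_apply' (roundD C x O δ) (k + 1)]
            rfl
          · rw [hb] at hO
            simp only [seeD]
            rw [ih a (by have := hlay g b a c' hb hO; omega) c']
        · simp [seeD, hO]
      change comb c _ _ = comb c _ _
      rw [hin, hin]
  refine ⟨fun i => ?_, fun g c => ?_⟩
  · rw [Function.iterate_succ_apply']
    rfl
  · rw [key d g (hd g) c, Function.iterate_succ_apply']
    rfl

/-! ### The machine -/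

def seeB (A : Acc α n m) (z : α → Bool) (v O δ : Arc n m → Bool) (p : Fin m × Bool) : Bool :=
  decide (∃ e, (z (A.In p e) && ((O e && v e) || (!O e && δ e))) = true)

theorem seeB_eq {A : Acc α n m} {C : CompCircuit n m} {x : Fin n → Bool} {z : α → Bool}
    (h : A.Enc C x z) (v O δ : Arc n m → Bool) (p : Fin m × Bool) :
    seeB A z v O δ p = seeD v O δ (C.inp p) := by
  have key : seeB A z v O δ p = ((O (C.inp p) && v (C.inp p)) ||
      (!O (C.inp p) && δ (C.inp p))) := by
    rw [Bool.eq_iff_iff]
    simp only [seeB, Bool.and_eq_true, decide_eq_true_eq, h.inp]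
    constructor
    · rintro ⟨e, rfl, h1⟩; exact h1
    · intro h1; exact ⟨_, rfl, h1⟩
  rw [key]
  unfold seeD
  cases O (C.inp p) <;> simp

/-- State: values, open arcs and bits delivered by closed arcs. -/
abbrev St (n m : ℕ) : Type := (Arc n m ⊕ Arc n m) ⊕ Arc n m
/-- State with the set of arcs to be opened. -/
abbrev St1 (n m : ℕ) : Type := St n m ⊕ Arc n m
/-- State with a reachability matrix. -/
abbrev St2 (n m : ℕ) : Type := St1 n m ⊕ (Arc n m × Arc n m)

abbrev St.v (s : St n m → Bool) : Arc n m → Bool := fun e => s (Sum.inl (Sum.inl e))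
abbrev St.o (s : St n m → Bool) : Arc n m → Bool := fun e => s (Sum.inl (Sum.inr e))
abbrev St.d (s : St n m → Bool) : Arc n m → Bool := fun e => s (Sum.inr e)

def roundB (A : Acc α n m) (z : α → Bool) (s : St n m → Bool) : St n m → Bool
  | Sum.inl (Sum.inl (Sum.inl i)) => z (A.X i)
  | Sum.inl (Sum.inl (Sum.inr (g, c))) =>
      comb c (seeB A z (St.v s) (St.o s) (St.d s) (g, false))
        (seeB A z (St.v s) (St.o s) (St.d s) (g, true))
  | Sum.inl (Sum.inr e) => s (Sum.inl (Sum.inr e))
  | Sum.inr e => s (Sum.inr e)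

def nxB (A : Acc α n m) (z : α → Bool) (v O δ : Arc n m → Bool) (e : Arc n m) (g : Fin m)
    (c b : Bool) : Bool :=
  z (A.In (g, b) e) && (if c then !(seeB A z v O δ (g, !b)) else seeB A z v O δ (g, !b))

def matB (A : Acc α n m) (z : α → Bool) (v O δ S : Arc n m → Bool) (e : Arc n m) :
    Arc n m → Bool
  | Sum.inl i => decide (e = Sum.inl i)
  | Sum.inr (g, c) => decide (e = Sum.inr (g, c)) ||
      ((O e || S e) && (nxB A z v O δ e g c false || nxB A z v O δ e g c true))

theorem matB_iff {A : Acc α n m} {C : CompCircuit n m} {x : Fin n → Bool} {z : α → Bool}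
    (h : A.Enc C x z) (v O δ S : Arc n m → Bool) (e f : Arc n m) :
    matB A z v O δ S e f = true ↔ e = f ∨ NxtD C v O δ (fun a => O a || S a) e f := by
  have hnx : ∀ g c b, nxB A z v O δ e g c b = true ↔
      C.inp (g, b) = e ∧ c = !seeD v O δ (C.inp (g, !b)) := by
    intro g c b
    simp only [nxB, Bool.and_eq_true, h.inp, seeB_eq h]
    cases c <;> cases seeD v O δ (C.inp (g, !b)) <;> simp
  rcases f with i | ⟨g, c⟩
  · simp only [matB, decide_eq_true_eq, NxtD]
    constructor
    · exact fun h => Or.inl h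
    · rintro (h | ⟨_, g, b, _, h⟩)
      · exact h
      · exact absurd h (by simp)
  · simp only [matB, Bool.or_eq_true, decide_eq_true_eq, Bool.and_eq_true, hnx, NxtD]
    constructor
    · rintro (h | ⟨h1, h2⟩)
      · exact Or.inl h
      · right
        refine ⟨h1, g, ?_⟩
        rcases h2 with ⟨h2, h3⟩ | ⟨h2, h3⟩
        · exact ⟨false, h2, by rw [← h3]⟩
        · exact ⟨true, h2, by rw [← h3]⟩
    · rintro (h | ⟨h1, g', b, h2, h3⟩)
      · exact Or.inl h
      · right
        have h4 := Prod.mk.inj (Sum.inr.inj h3)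
        obtain ⟨rfl, h5⟩ := h4
        refine ⟨h1, ?_⟩
        cases b
        · exact Or.inl ⟨h2, h5⟩
        · exact Or.inr ⟨h2, h5⟩

def st1B (pick : (α → Bool) → (St n m → Bool) → Arc n m → Bool) (z : α → Bool)
    (s : St n m → Bool) : St1 n m → Bool
  | Sum.inl t => s t
  | Sum.inr e => pick z s e

def st2B (A : Acc α n m) (z : α → Bool) (s : St1 n m → Bool) : St2 n m → Bool
  | Sum.inl t => s t
  | Sum.inr (e, f) => matB A z (fun e => s (Sum.inl (Sum.inl (Sum.inl e))))
      (fun e => s (Sum.inl (Sum.inl (Sum.inr e)))) (fun e => s (Sum.inl (Sum.inr e)))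
      (fun e => s (Sum.inr e)) e f

def sqB (s : St2 n m → Bool) : St2 n m → Bool
  | Sum.inl t => s (Sum.inl t)
  | Sum.inr p => sq (fun q => s (Sum.inr q)) p

def bx (a b : Bool) : Bool := (a && !b) || (!a && b)

theorem bx_iff (a b : Bool) : bx a b = true ↔ a ≠ b := by cases a <;> cases b <;> simp [bx]

def endB (s : St2 n m → Bool) : St n m → Bool
  | Sum.inl (Sum.inl f) => bx (s (Sum.inl (Sum.inl (Sum.inl (Sum.inl f)))))
      (decide (∃ e, (decide (e ≠ f) && ((s (Sum.inl (Sum.inr e)) &&
        bx (s (Sum.inl (Sum.inl (Sum.inl (Sum.inl e))))) (s (Sum.inl (Sum.inl (Sum.inr e))))) &&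
        s (Sum.inr (e, f)))) = true))
  | Sum.inl (Sum.inr e) => s (Sum.inl (Sum.inl (Sum.inl (Sum.inr e)))) || s (Sum.inl (Sum.inr e))
  | Sum.inr e => s (Sum.inl (Sum.inl (Sum.inr e)))

/-- The complete push step. -/
def pushB (A : Acc α n m) (L : ℕ) (pick : (α → Bool) → (St n m → Bool) → Arc n m → Bool)
    (z : α → Bool) (s : St n m → Bool) : St n m → Bool :=
  endB (sqB^[L] (st2B A z (st1B pick z s)))

theorem sqB_iterate (L : ℕ) (s : St2 n m → Bool) :
    sqB^[L] s = Sum.elim (fun t => s (Sum.inl t)) (sq^[L] (fun q => s (Sum.inr q))) := by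
  induction L generalizing s with
  | zero => funext t; cases t <;> rfl
  | succ L ih =>
    rw [Function.iterate_succ_apply, ih, Function.iterate_succ_apply]
    rfl

theorem pushB_open (A : Acc α n m) (L : ℕ)
    (pick : (α → Bool) → (St n m → Bool) → Arc n m → Bool) (z : α → Bool)
    (s : St n m → Bool) (e : Arc n m) :
    St.o (pushB A L pick z s) e = (St.o s e || pick z s e) := by
  unfold St.o pushB
  rw [sqB_iterate]
  rfl

theorem pushB_d (A : Acc α n m) (L : ℕ)
    (pick : (α → Bool) → (St n m → Bool) → Arc n m → Bool) (z : α → Bool)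
    (s : St n m → Bool) (e : Arc n m) :
    St.d (pushB A L pick z s) e = St.d s e := by
  unfold St.d pushB
  rw [sqB_iterate]
  rfl

/-- The values after a push step. -/
theorem pushB_v {A : Acc α n m} {C : CompCircuit n m} {x : Fin n → Bool} {z : α → Bool}
    (hz : A.Enc C x z) {L : ℕ} (hL : Fintype.card (Arc n m) ≤ 2 ^ L)
    (pick : (α → Bool) → (St n m → Bool) → Arc n m → Bool) (s : St n m → Bool) (f : Arc n m) :
    St.v (pushB A L pick z s) f ≠ St.v s f ↔ ∃ e, pick z s e = true ∧ St.v s e ≠ St.d s e ∧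
      TransGen (NxtD C (St.v s) (St.o s) (St.d s) (fun a => St.o s a || pick z s a)) e f := by
  obtain ⟨ht, hht1, hht2⟩ := exists_height C
  set v : Arc n m → Bool := St.v s with hvdef
  set O : Arc n m → Bool := St.o s with hOdef
  set δ : Arc n m → Bool := St.d s with hδdef
  set S : Arc n m → Bool := pick z s with hSdef
  set R := NxtD C v O δ (fun a => O a || S a) with hR
  have hM : ∀ e f, (fun q : Arc n m × Arc n m => matB A z v O δ S q.1 q.2) (e, f) = true ↔
      e = f ∨ R e f := fun e f => matB_iff hz v O δ S e f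
  have hht : ∀ e f, R e f → ht e < ht f := by
    rintro e f ⟨_, g, b, rfl, rfl⟩
    rw [hht2]
    exact hht1 g b
  have hTht : ∀ e f, TransGen R e f → ht e < ht f := by
    intro e f hef
    induction hef with
    | single h => exact hht _ _ h
    | tail _ h ih => exact lt_trans ih (hht _ _ h)
  have hreach := sq_iterate_iff (M := fun q : Arc n m × Arc n m => matB A z v O δ S q.1 q.2)
    hM hL hht
  have hval : St.v (pushB A L pick z s) f = bx (v f)
      (decide (∃ e, (decide (e ≠ f) && ((S e && bx (v e) (δ e)) &&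
        (sq^[L] (fun q : Arc n m × Arc n m => matB A z v O δ S q.1 q.2)) (e, f))) = true)) := by
    unfold St.v pushB
    rw [sqB_iterate]
    rfl
  have key : (∃ e, (decide (e ≠ f) && ((S e && bx (v e) (δ e)) &&
      (sq^[L] (fun q : Arc n m × Arc n m => matB A z v O δ S q.1 q.2)) (e, f))) = true) ↔
      ∃ e, S e = true ∧ v e ≠ δ e ∧ TransGen R e f := by
    simp only [Bool.and_eq_true, decide_eq_true_eq, bx_iff]
    constructor
    · rintro ⟨e, hne, ⟨h1, h2⟩, h3⟩
      refine ⟨e, h1, h2, ?_⟩
      rcases reflTransGen_iff_eq_or_transGen.1 ((hreach e f).1 h3) with h | h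
      · exact absurd h.symm hne
      · exact h
    · rintro ⟨e, h1, h2, h3⟩
      refine ⟨e, ?_, ⟨h1, h2⟩, (hreach e f).2 h3.to_reflTransGen⟩
      rintro rfl
      exact lt_irrefl _ (hTht _ _ h3)
  rw [hval, ← key]
  by_cases hex : ∃ e, (decide (e ≠ f) && ((S e && bx (v e) (δ e)) &&
      (sq^[L] (fun q : Arc n m × Arc n m => matB A z v O δ S q.1 q.2)) (e, f))) = true
  · rw [decide_eq_true hex]
    refine ⟨fun _ => hex, fun _ => ?_⟩
    cases v f <;> simp [bx]
  · rw [decide_eq_false hex]
    refine ⟨fun h => ?_, fun h => absurd h hex⟩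
    exfalso
    apply h
    cases v f <;> simp [bx]

theorem pushB_valD {A : Acc α n m} {C : CompCircuit n m} {x : Fin n → Bool} {z : α → Bool}
    (hz : A.Enc C x z) {L : ℕ} (hL : Fintype.card (Arc n m) ≤ 2 ^ L)
    (pick : (α → Bool) → (St n m → Bool) → Arc n m → Bool) (s : St n m → Bool)
    (hv : ValD C x (St.o s) (St.d s) (St.v s))
    (hS : ∀ e, pick z s e = true → St.o s e = false)
    (hsep : ∀ e e', pick z s e = true → St.v s e ≠ St.d s e → pick z s e' = true →
      St.v s e' ≠ St.d s e' →
      ReflTransGen (Adj C (fun a => (St.o s a || pick z s a) = true)) e e' → e = e') :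
    ValD C x (St.o (pushB A L pick z s)) (St.d (pushB A L pick z s))
      (St.v (pushB A L pick z s)) := by
  have h1 : St.o (pushB A L pick z s) = fun a => St.o s a || pick z s a := by
    funext e
    exact pushB_open A L pick z s e
  have h2 : St.d (pushB A L pick z s) = St.d s := by
    funext e
    exact pushB_d A L pick z s e
  rw [h1, h2]
  exact pushD hv hS hsep (pushB_v hz hL pick s)

/-! ### Depth and size -/

variable {Y : Type}

theorem FD.bx {k : ℕ} {f g : (Y → Bool) → Bool} (h : FD k f) (h' : FD k g) :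
    FD (k + 3) (fun x => bx (f x) (g x)) := by
  have h1 := (h.mono (Nat.le_succ k)).and h'.neg
  have h2 := h.neg.and (h'.mono (Nat.le_succ k))
  exact (h1.or h2).mono (by omega)

theorem fd_seeB (A : Acc α n m) {L : ℕ} (hL : Fintype.card (Arc n m) ≤ 2 ^ L)
    (zi : α → Y) (vi Oi di : Arc n m → Y) (p : Fin m × Bool) :
    FD (4 + L) (fun y : Y → Bool =>
      seeB A (fun a => y (zi a)) (fun e => y (vi e)) (fun e => y (Oi e))
        (fun e => y (di e)) p) := by
  have := FD.exists (k := 4) L hL (fun (e : Arc n m) (y : Y → Bool) =>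
    y (zi (A.In p e)) && ((y (Oi e) && y (vi e)) || (!y (Oi e) && y (di e))))
    (fun e => (FD.var 3 _).and (((FD.var 1 _).and (FD.var 1 _)).or
      ((FD.var 0 _).neg.and (FD.var 1 _))))
  exact this

theorem fd_nxB (A : Acc α n m) {L : ℕ} (hL : Fintype.card (Arc n m) ≤ 2 ^ L)
    (zi : α → Y) (vi Oi di : Arc n m → Y) (e : Arc n m) (g : Fin m) (c b : Bool) :
    FD (6 + L) (fun y : Y → Bool =>
      nxB A (fun a => y (zi a)) (fun e => y (vi e)) (fun e => y (Oi e)) (fun e => y (di e))
        e g c b) := by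
  have h1 := fd_seeB A hL zi vi Oi di (g, !b)
  have h2 : FD (5 + L) (fun y : Y → Bool => if c then
      !(seeB A (fun a => y (zi a)) (fun e => y (vi e)) (fun e => y (Oi e))
        (fun e => y (di e)) (g, !b)) else
      seeB A (fun a => y (zi a)) (fun e => y (vi e)) (fun e => y (Oi e))
        (fun e => y (di e)) (g, !b)) := by
    cases c
    · exact h1.mono (by omega)
    · exact h1.neg.mono (by omega)
  exact ((FD.var _ _).and h2).mono (by omega)

theorem fd_matB (A : Acc α n m) {L : ℕ} (hL : Fintype.card (Arc n m) ≤ 2 ^ L)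
    (zi : α → Y) (vi Oi di Si : Arc n m → Y) (e f : Arc n m) :
    FD (9 + L) (fun y : Y → Bool =>
      matB A (fun a => y (zi a)) (fun e => y (vi e)) (fun e => y (Oi e)) (fun e => y (di e))
        (fun e => y (Si e)) e f) := by
  rcases f with i | ⟨g, c⟩
  · exact FD.const _ _
  · have h1 := fd_nxB A hL zi vi Oi di e g c false
    have h2 := fd_nxB A hL zi vi Oi di e g c true
    have h3 : FD (7 + L) (fun y : Y → Bool => (y (Oi e) || y (Si e))) :=
      ((FD.var 0 _).or (FD.var 0 _)).mono (by omega)
    have h4 := (h3.and ((h1.or h2).mono (by omega)))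
    exact ((FD.const _ _).or h4).mono (by omega)

/-- Apply a state transformation to every copy of the state. -/
def par {V σ τ : Type} (F : (σ → Bool) → τ → Bool) (s : V × σ → Bool) : V × τ → Bool :=
  fun p => F (fun t => s (p.1, t)) p.2

theorem lev_par {V σ τ : Type} [Fintype V] [Fintype τ] {W d k : ℕ}
    (F : (α → Bool) → (σ → Bool) → τ → Bool)
    (hF : ∀ (v : V) (t : τ), FD k (fun y : α ⊕ (V × σ) → Bool =>
      F (fun a => y (Sum.inl a)) (fun b => y (Sum.inr (v, b))) t))
    (hW : Fintype.card (V × τ) * 2 ^ k ≤ W) {f : (α → Bool) → V × σ → Bool}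
    (h : Lev α W d (V × σ) f) :
    Lev α W (d + k + 1) (V × τ) (fun x => par (F x) (f x)) := by
  exact Lev.formula (k := k) (γ := V × τ)
    (fun p (y : α ⊕ (V × σ) → Bool) => F (fun a => y (Sum.inl a))
      (fun b => y (Sum.inr (p.1, b))) p.2) (fun p => hF p.1 p.2) hW h

theorem lev_round {V : Type} [Fintype V] (A : Acc α n m) {W L d : ℕ}
    (hL : Fintype.card (Arc n m) ≤ 2 ^ L)
    (hW : Fintype.card (V × St n m) * 2 ^ (5 + L) ≤ W) {f : (α → Bool) → V × St n m → Bool}
    (h : Lev α W d (V × St n m) f) :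
    Lev α W (d + (6 + L)) (V × St n m) (fun x => par (roundB A x) (f x)) := by
  have h1 := lev_par (k := 5 + L) (fun x s => roundB A x s) ?_ hW h
  · have e : d + (5 + L) + 1 = d + (6 + L) := by omega
    rw [e] at h1
    exact h1
  · intro v t
    rcases t with ((i | ⟨g, c⟩) | e) | e
    · exact FD.var _ _
    · have h1 := fd_seeB A hL (Y := α ⊕ (V × St n m)) Sum.inl
        (fun e => Sum.inr (v, Sum.inl (Sum.inl e))) (fun e => Sum.inr (v, Sum.inl (Sum.inr e)))
        (fun e => Sum.inr (v, Sum.inr e)) (g, false)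
      have h2 := fd_seeB A hL (Y := α ⊕ (V × St n m)) Sum.inl
        (fun e => Sum.inr (v, Sum.inl (Sum.inl e))) (fun e => Sum.inr (v, Sum.inl (Sum.inr e)))
        (fun e => Sum.inr (v, Sum.inr e)) (g, true)
      have h3 : FD (4 + L + 1) (fun y : α ⊕ (V × St n m) → Bool => comb c
          (seeB A (fun a => y (Sum.inl a)) (fun e => y (Sum.inr (v, Sum.inl (Sum.inl e))))
            (fun e => y (Sum.inr (v, Sum.inl (Sum.inr e)))) (fun e => y (Sum.inr (v, Sum.inr e)))
            (g, false))
          (seeB A (fun a => y (Sum.inl a)) (fun e => y (Sum.inr (v, Sum.inl (Sum.inl e))))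
            (fun e => y (Sum.inr (v, Sum.inl (Sum.inr e)))) (fun e => y (Sum.inr (v, Sum.inr e)))
            (g, true))) := by
        cases c
        · exact h1.and h2
        · exact h1.or h2
      exact h3.mono (by omega)
    · exact FD.var _ _
    · exact FD.var _ _

theorem lev_push {V : Type} [Fintype V] (A : Acc α n m) {W L d kS : ℕ}
    (hL : Fintype.card (Arc n m) ≤ 2 ^ L)
    (pick : (α → Bool) → (St n m → Bool) → Arc n m → Bool)
    (hpick : ∀ (v : V) (e : Arc n m), FD kS (fun y : α ⊕ (V × St n m) → Bool =>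
      pick (fun a => y (Sum.inl a)) (fun b => y (Sum.inr (v, b))) e))
    (hW1 : Fintype.card (V × St1 n m) * 2 ^ kS ≤ W)
    (hW2 : Fintype.card (V × St2 n m) * 2 ^ (9 + L) ≤ W) {f : (α → Bool) → V × St n m → Bool}
    (h : Lev α W d (V × St n m) f) :
    Lev α W (d + (kS + L * (L + 2) + 2 * L + 21)) (V × St n m)
      (fun x => par (pushB A L pick x) (f x)) := by
  -- picking
  have h1 : Lev α W (d + kS + 1) (V × St1 n m) (fun x => par (st1B pick x) (f x)) := by
    refine lev_par (k := kS) (fun x s => st1B pick x s) ?_ hW1 h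
    rintro v (t | e)
    · exact FD.var _ _
    · exact hpick v e
  have h2 : Lev α W (d + kS + 1 + (9 + L) + 1) (V × St2 n m)
      (fun x => par (st2B A x) (par (st1B pick x) (f x))) := by
    refine lev_par (k := 9 + L) (fun x s => st2B A x s) ?_ hW2 h1
    rintro v (t | ⟨e, f⟩)
    · exact FD.var _ _
    · exact fd_matB A hL (Y := α ⊕ (V × St1 n m)) Sum.inl
        (fun e => Sum.inr (v, Sum.inl (Sum.inl (Sum.inl e))))
        (fun e => Sum.inr (v, Sum.inl (Sum.inl (Sum.inr e))))
        (fun e => Sum.inr (v, Sum.inl (Sum.inr e))) (fun e => Sum.inr (v, Sum.inr e)) e f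
  have h3 : ∀ (r d : ℕ) (f : (α → Bool) → V × St2 n m → Bool), Lev α W d (V × St2 n m) f →
      Lev α W (d + r * (L + 2)) (V × St2 n m) (fun x => par (sqB^[r]) (f x)) := by
    intro r
    induction r with
    | zero =>
      intro d f h
      have e : (fun x => par (V := V) (sqB (n := n) (m := m)^[0]) (f x)) = f := rfl
      rw [e]
      simpa using h
    | succ r ih =>
      intro d f h
      have h4 := ih d f h
      have h5 : Lev α W (d + r * (L + 2) + (1 + L) + 1) (V × St2 n m)
          (fun x => par sqB (par (sqB^[r]) (f x))) := by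
        refine lev_par (k := 1 + L) (fun _ s => sqB s) ?_ ?_ h4
        · rintro v (t | ⟨e, f⟩)
          · exact FD.var _ _
          · have := FD.exists (k := 1) L hL
              (fun (h : Arc n m) (y : α ⊕ (V × St2 n m) → Bool) =>
              (y (Sum.inr (v, Sum.inr (e, h))) && y (Sum.inr (v, Sum.inr (h, f)))))
              (fun _ => (FD.var 0 _).and (FD.var 0 _))
            exact this
        · refine le_trans (Nat.mul_le_mul_left _ ?_) hW2
          exact Nat.pow_le_pow_right (by norm_num) (by omega)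
      have e : d + r * (L + 2) + (1 + L) + 1 = d + (r + 1) * (L + 2) := by ring
      rw [e] at h5
      have e2 : (fun x => par (V := V) (sqB (n := n) (m := m)^[r + 1]) (f x)) =
          fun x => par sqB (par (sqB^[r]) (f x)) := by
        funext x p
        simp only [par]
        rw [Function.iterate_succ_apply']
      rw [e2]
      exact h5
  have h4 := h3 L _ _ h2
  have h5 : Lev α W (d + kS + 1 + (9 + L) + 1 + L * (L + 2) + (9 + L) + 1) (V × St n m)
      (fun x => par (pushB A L pick x) (f x)) := by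
    refine lev_par (k := 9 + L) (fun _ s => endB s) ?_ ?_ h4
    · rintro v ((f | e) | e)
      · have h6 := FD.exists (k := 6) L hL (fun (e : Arc n m) (y : α ⊕ (V × St2 n m) → Bool) =>
          (decide (e ≠ f) && ((y (Sum.inr (v, Sum.inl (Sum.inr e))) &&
            bx (y (Sum.inr (v, Sum.inl (Sum.inl (Sum.inl (Sum.inl e))))))
              (y (Sum.inr (v, Sum.inl (Sum.inl (Sum.inr e)))))) &&
            y (Sum.inr (v, Sum.inr (e, f))))))
          (fun _ => (FD.const 5 _).and (((FD.var 3 _).and (FD.bx (FD.var 0 _) (FD.var 0 _))).and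
            (FD.var 4 _)))
        exact (FD.bx (FD.var _ _) h6).mono (by omega)
      · exact ((FD.var 0 _).or (FD.var 0 _)).mono (by omega)
      · exact FD.var _ _
    · refine le_trans (Nat.mul_le_mul ?_ le_rfl) hW2
      simp only [Fintype.card_prod, Fintype.card_sum]
      exact Nat.mul_le_mul_left _ (by omega)
  have e : d + kS + 1 + (9 + L) + 1 + L * (L + 2) + (9 + L) + 1 =
      d + (kS + L * (L + 2) + 2 * L + 21) := by ring
  rw [e] at h5
  exact h5

end Pool.Agent.LibCCV
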