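import Pool.Agent.LibCCV.Count

/-!
One level of the dyadic decomposition: rounds of pushes that open all arcs of the level.
-/

namespace Pool.Agent.LibCCV

open Relation
open Pool.Agent.LibCC hiding St St1 St2 pushB pushB_open roundB

variable {n m : ℕ} {α : Type}

theorem pick_iff (C : CompCircuit n m) (x : Fin n → Bool) (e : Arc n m) (l : ℕ)
    (s : St n m → Bool) (a : Fin m × Bool) :
    pickB 0 l (encode C x e) s (Sum.inr a) = true ↔
      Lv C l a ∧ St.o s (Sum.inr a) = false ∧
      (St.v s (Sum.inr a) = St.d s (Sum.inr a) ∨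
        ∀ a', before a' a → (a'.1 : ℕ) / 2 ^ (l + 1) = (a.1 : ℕ) / 2 ^ (l + 1) →
          ¬ (Lv C l a' ∧ St.o s (Sum.inr a') = false ∧
            St.v s (Sum.inr a') ≠ St.d s (Sum.inr a'))) := by
  have h := pickB_iff C x e 0 l s a
  simp only [Nat.zero_add, Nat.div_one] at h
  exact h

/-- Invariant during the processing of level `l`. -/
structure PhInv (C : CompCircuit n m) (x : Fin n → Bool) (l : ℕ) (s : St n m → Bool) : Prop where
  src : ∀ i, St.v s (Sum.inl i) = x i
  osrc : ∀ i, St.o s (Sum.inl i) = true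
  old : ∀ a l', l' < l → Lv C l' a → St.o s (Sum.inr a) = true
  new : ∀ p a, C.inp p = Sum.inr a → St.o s (Sum.inr a) = true → ∃ l', l' ≤ l ∧ Lv C l' a

theorem PhInv.push {A : Acc α n m} {C : CompCircuit n m} {x : Fin n → Bool} {e : Arc n m}
    {z : α → Bool} (hz : A.Enc C x z) {L : ℕ} (hL : Fintype.card (Arc n m) ≤ 2 ^ L)
    {pick : (α → Bool) → (St n m → Bool) → Arc n m → Bool} {l : ℕ}
    (hP : ∀ s a, pick z s a = pickB 0 l (encode C x e) s a)
    {s : St n m → Bool} (h : PhInv C x l s) :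
    PhInv C x l (pushB A L pick z s) ∧
    ∀ g, GateOK C (St.v s) (St.o s) (St.d s) g →
      GateOK C (St.v (pushB A L pick z s)) (St.o (pushB A L pick z s))
        (St.d (pushB A L pick z s)) g := by
  have hinl : ∀ i, pick z s (Sum.inl i) = false := by
    intro i
    rw [hP]
    rfl
  have hpk : ∀ a, pick z s (Sum.inr a) = true ↔
      Lv C l a ∧ St.o s (Sum.inr a) = false ∧
      (St.v s (Sum.inr a) = St.d s (Sum.inr a) ∨
        ∀ a', before a' a → (a'.1 : ℕ) / 2 ^ (l + 1) = (a.1 : ℕ) / 2 ^ (l + 1) →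
          ¬ (Lv C l a' ∧ St.o s (Sum.inr a') = false ∧
            St.v s (Sum.inr a') ≠ St.d s (Sum.inr a'))) := by
    intro a
    rw [hP]
    exact pick_iff C x e l s a
  have hblk : ∀ a, (St.o s (Sum.inr a) || pick z s (Sum.inr a)) = true →
      ∀ p, C.inp p = Sum.inr a →
        (a.1 : ℕ) / 2 ^ (l + 1) = (p.1 : ℕ) / 2 ^ (l + 1) := by
    intro a ha p hp
    rw [Bool.or_eq_true] at ha
    rcases ha with ha | ha
    · obtain ⟨l', hl', hlv⟩ := h.new p a hp ha
      exact div_pow_of_le (Nat.succ_le_succ hl') (hlv.spec hp).1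
    · rw [hpk] at ha
      exact (ha.1.spec hp).1
  have hloc := pushB_local hz hL pick s h.src
    (fun e he => by
      rcases e with i | a
      · rw [hinl] at he
        exact Bool.noConfusion he
      · rw [hpk] at he
        exact he.2.1)
    (fun e e' he hve he' hve' hc => by
      rcases e with i | a
      · rw [hinl] at he
        exact Bool.noConfusion he
      rcases e' with i' | a'
      · rw [hinl] at he'
        exact Bool.noConfusion he'
      have hb := walk_block C (fun a => (St.o s a || pick z s a) = true)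
        (2 ^ (l + 1)) hblk (a := a)
        (by simp only [he, Bool.or_true]) hc a'.1 (Or.inr ⟨a'.2, rfl⟩)
      rw [hpk] at he he'
      congr 1
      apply before_total
      · intro hlt
        rcases he'.2.2 with h | h
        · exact hve' h
        · exact h a hlt hb.symm ⟨he.1, he.2.1, hve⟩
      · intro hlt
        rcases he.2.2 with h | h
        · exact hve h
        · exact h a' hlt hb ⟨he'.1, he'.2.1, hve'⟩)
  refine ⟨⟨hloc.1, fun i => ?_, fun a l' hl' ha => ?_, fun p a hp ha => ?_⟩, hloc.2⟩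
  · rw [pushB_open, h.osrc]
    rfl
  · rw [pushB_open, h.old a l' hl' ha]
    rfl
  · rw [pushB_open, Bool.or_eq_true] at ha
    rcases ha with ha | ha
    · exact h.new p a hp ha
    · rw [hpk] at ha
      exact ⟨l, le_rfl, ha.1⟩

/-- After `2 w + 1` rounds all arcs of level `l` in the block `K` are open, provided that the
closed arcs of level at least `l` at the block deliver the bits of an assignment `a` that
differs from the true valuation on at most `w` arcs across every cut. -/
theorem phase_complete {A : Acc α n m} {C : CompCircuit n m} (hT : Topo C)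
    {x : Fin n → Bool} {e : Arc n m}
    {z : α → Bool} (hz : A.Enc C x z) {L : ℕ} (hL : Fintype.card (Arc n m) ≤ 2 ^ L)
    (hm : m ≤ 2 ^ L)
    {pick : (α → Bool) → (St n m → Bool) → Arc n m → Bool} {l : ℕ}
    (hP : ∀ s a, pick z s a = pickB 0 l (encode C x e) s a)
    {s : St n m → Bool} (h : PhInv C x l s)
    (hstart : ∀ p a, C.inp p = Sum.inr a → St.o s (Sum.inr a) = true → ∃ l', l' < l ∧ Lv C l' a)
    {v a : Arc n m → Bool} (hv : C.IsVal x v) {w : ℕ} (ha : CutErrLE C a v w) (K : ℕ)
    (hd : ∀ p f, C.inp p = Sum.inr f → (p.1 : ℕ) / 2 ^ (l + 1) = K →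
      (∀ l', l' < l → ¬ Lv C l' f) → St.d s (Sum.inr f) = a (Sum.inr f))
    (hg : ∀ g : Fin m, (g : ℕ) / 2 ^ (l + 1) = K → GateOK C (St.v s) (St.o s) (St.d s) g) :
    ∀ f, Lv C l f → (f.1 : ℕ) / 2 ^ (l + 1) = K →
      St.o ((pushB A L pick z)^[2 * w + 1] s) (Sum.inr f) = true := by
  set sq : ℕ → St n m → Bool := fun r => (pushB A L pick z)^[r] s with hsq
  have hsucc : ∀ r, sq (r + 1) = pushB A L pick z (sq r) := by
    intro r
    simp only [hsq]
    rw [Function.iterate_succ_apply']
  have hinv : ∀ r, PhInv C x l (sq r) := by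
    intro r
    induction r with
    | zero => exact h
    | succ r ih =>
      rw [hsucc]
      exact (ih.push hz hL hP).1
  have hdr : ∀ r f, St.d (sq r) f = St.d s f := by
    intro r
    induction r with
    | zero => intro f; rfl
    | succ r ih =>
      intro f
      rw [hsucc, pushB_d, ih]
  have hpk : ∀ r a, pick z (sq r) (Sum.inr a) = true ↔
      Lv C l a ∧ St.o (sq r) (Sum.inr a) = false ∧
      (St.v (sq r) (Sum.inr a) = St.d s (Sum.inr a) ∨
        ∀ a', before a' a → (a'.1 : ℕ) / 2 ^ (l + 1) = (a.1 : ℕ) / 2 ^ (l + 1) →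
          ¬ (Lv C l a' ∧ St.o (sq r) (Sum.inr a') = false ∧
            St.v (sq r) (Sum.inr a') ≠ St.d s (Sum.inr a'))) := by
    intro r a
    rw [hP]
    have h1 := pick_iff C x e l (sq r) a
    rw [h1, hdr]
    constructor
    · rintro ⟨h1, h2, h3⟩
      refine ⟨h1, h2, ?_⟩
      rcases h3 with h3 | h3
      · exact Or.inl h3
      · refine Or.inr fun a' hb hK hc => h3 a' hb hK ?_
        rw [hdr]
        exact hc
    · rintro ⟨h1, h2, h3⟩
      refine ⟨h1, h2, ?_⟩
      rcases h3 with h3 | h3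
      · exact Or.inl h3
      · refine Or.inr fun a' hb hK hc => h3 a' hb hK ?_
        rw [hdr] at hc
        exact hc
  have hopen : ∀ r f, St.o (sq (r + 1)) f = (St.o (sq r) f || pick z (sq r) f) := by
    intro r f
    rw [hsucc]
    exact pushB_open _ _ _ _ _ _
  -- the mismatched arcs at the start
  have hM : {f : Fin m × Bool | Lv C l f ∧ (f.1 : ℕ) / 2 ^ (l + 1) = K ∧
      St.v s (Sum.inr f) ≠ St.d s (Sum.inr f)}.ncard ≤ 2 * w := by
    set sL : ℕ := (2 * K) * 2 ^ l with hsL
    set cM : ℕ := (2 * K + 1) * 2 ^ l with hcM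
    have hpos : 0 < 2 ^ l := by positivity
    have hpow : 2 ^ (l + 1) = 2 * 2 ^ l := by rw [pow_succ]; ring
    have hrange : ∀ y : ℕ, (sL ≤ y ∧ y < cM) ↔ y / 2 ^ l = 2 * K := by
      intro y
      rw [hsL, hcM]
      constructor
      · rintro ⟨h1, h2⟩
        have h3 := (Nat.le_div_iff_mul_le hpos).2 h1
        have h4 := (Nat.div_lt_iff_lt_mul hpos).2 h2
        omega
      · intro h1
        exact ⟨(Nat.le_div_iff_mul_le hpos).1 h1.ge, (Nat.div_lt_iff_lt_mul hpos).1 (by omega)⟩
    have hup : ∀ y : ℕ, y / 2 ^ l = 2 * K → y / 2 ^ (l + 1) = K := by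
      intro y hy
      rw [pow_succ, ← Nat.div_div_eq_div_mul, hy]
      omega
    have hinj := inject hT hv h.src sL cM
      (O := St.o s) (δ := St.d s) (u := St.v s)
      (fun g h1 h2 => hg g (hup _ ((hrange _).1 ⟨h1, h2⟩)))
      h.osrc
      (fun p b hp h1 h2 => by
        have h3 := hT p b hp
        have h4 := (hrange b.1).1 ⟨h1, by omega⟩
        have h5 := (hrange p.1).1 ⟨by omega, h2⟩
        obtain ⟨l', hl', hlv⟩ := exists_level C hm p b hp
        have h6 : l' < l := by
          by_contra hcon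
          obtain ⟨_, h7⟩ := hlv.spec hp
          exact h7 (div_pow_of_le (not_lt.1 hcon) (h4.trans h5.symm))
        exact h.old b l' h6 hlv)
      (fun p b hp h1 h2 h3 => by
        by_contra hcon
        have h4 : St.o s (Sum.inr b) = true := by simpa using hcon
        obtain ⟨l', hl', hlv⟩ := hstart p b hp h4
        have h5 := (hlv.spec hp).1
        have h6 := div_pow_of_le (Nat.succ_le_of_lt hl') h5
        have h7 := (hrange p.1).1 ⟨h2, h3⟩
        have h8 := (hrange b.1).2 (h6.trans h7)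
        omega)
    have hA : {f : Fin m × Bool | sL ≤ (f.1 : ℕ) ∧ (f.1 : ℕ) < cM ∧
        St.v s (Sum.inr f) ≠ v (Sum.inr f) ∧
        ¬ ∃ p : Fin m × Bool, C.inp p = Sum.inr f ∧ (p.1 : ℕ) < cM}.ncard ≤ w := by
      refine le_trans hinj (le_trans (Set.ncard_le_ncard ?_ (Set.toFinite _)) (ha sL))
      rintro f ⟨h1, h2, p, hp, h3, h4⟩
      have h5 := (hrange p.1).1 ⟨h3, h4⟩
      refine ⟨⟨p, hp, by omega⟩, ?_⟩
      rw [← hd p f hp (hup _ h5)]
      · exact h2
      · intro l' hl' hlv
        have h6 := (hlv.spec hp).1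
        have h7 := div_pow_of_le (Nat.succ_le_of_lt hl') h6
        have h8 := (hrange f.1).2 (h7.trans h5)
        omega
    have hB : {f : Fin m × Bool | Crosses C cM f ∧ a (Sum.inr f) ≠ v (Sum.inr f)}.ncard ≤ w :=
      ha cM
    have hsub : {f : Fin m × Bool | Lv C l f ∧ (f.1 : ℕ) / 2 ^ (l + 1) = K ∧
        St.v s (Sum.inr f) ≠ St.d s (Sum.inr f)} ⊆
        {f : Fin m × Bool | sL ≤ (f.1 : ℕ) ∧ (f.1 : ℕ) < cM ∧
          St.v s (Sum.inr f) ≠ v (Sum.inr f) ∧
          ¬ ∃ p : Fin m × Bool, C.inp p = Sum.inr f ∧ (p.1 : ℕ) < cM} ∪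
        {f : Fin m × Bool | Crosses C cM f ∧ a (Sum.inr f) ≠ v (Sum.inr f)} := by
      rintro f ⟨h1, h2, h3⟩
      have hlv := h1
      obtain ⟨p, hp, h4, h5⟩ := h1
      have h6 := hlv.halves hT hp
      rw [h2] at h6
      have h7 := (hrange f.1).2 h6.1
      have h8 : cM ≤ (p.1 : ℕ) := by
        rw [hcM]
        exact (Nat.le_div_iff_mul_le hpos).1 h6.2.ge
      by_cases hvf : St.v s (Sum.inr f) = v (Sum.inr f)
      · right
        refine ⟨⟨p, hp, by omega⟩, ?_⟩
        rw [← hd p f hp (by rw [← h4, h2]), ← hvf]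
        · exact fun h => h3 h.symm
        · intro l' hl' hlv'
          exact absurd (hlv'.unique hlv) (Nat.ne_of_lt hl')
      · left
        refine ⟨h7.1, h7.2, hvf, ?_⟩
        rintro ⟨q, hq, h9⟩
        have h10 : q = p := C.inj (hq.trans hp.symm)
        subst h10
        omega
    refine le_trans (Set.ncard_le_ncard hsub (Set.toFinite _)) ?_
    refine le_trans (Set.ncard_union_le _ _) ?_
    omega
  -- counting
  have hcount : ∀ r, r ≤ 2 * w →
      {f : Fin m × Bool | Lv C l f ∧ St.o (sq (1 + r)) (Sum.inr f) = false ∧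
        (f.1 : ℕ) / 2 ^ (l + 1) = K}.ncard ≤ 2 * w - r := by
    intro r
    induction r with
    | zero =>
      intro _
      refine le_trans (Set.ncard_le_ncard ?_ (Set.toFinite _)) hM
      rintro f ⟨h1, h2, h3⟩
      refine ⟨h1, h3, ?_⟩
      intro hcon
      rw [Nat.add_comm 1 0, hopen, Bool.or_eq_false_iff] at h2
      have h4 : pick z (sq 0) (Sum.inr f) = true := by
        rw [hpk]
        exact ⟨h1, h2.1, Or.inl hcon⟩
      rw [h4] at h2
      exact Bool.noConfusion h2.2
    | succ r ih =>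
      intro hr
      have ih2 := ih (by omega)
      have hmono1 : ∀ f, St.o (sq (1 + (r + 1))) (Sum.inr f) = false →
          St.o (sq (1 + r)) (Sum.inr f) = false ∧
            pick z (sq (1 + r)) (Sum.inr f) = false := by
        intro f hf
        rw [← Nat.add_assoc, hopen, Bool.or_eq_false_iff] at hf
        exact hf
      set T : Set (Fin m × Bool) := {f | Lv C l f ∧ St.o (sq (1 + r)) (Sum.inr f) = false ∧
        (f.1 : ℕ) / 2 ^ (l + 1) = K} with hTdef
      set T' : Set (Fin m × Bool) := {f | Lv C l f ∧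
        St.o (sq (1 + (r + 1))) (Sum.inr f) = false ∧
        (f.1 : ℕ) / 2 ^ (l + 1) = K} with hT'
      have hsub : T' ⊆ T := fun f hf => ⟨hf.1, (hmono1 f hf.2.1).1, hf.2.2⟩
      by_cases hne : T.Nonempty
      · have hex : ∃ f ∈ T, pick z (sq (1 + r)) (Sum.inr f) = true := by
          by_cases hm : ∃ f ∈ T, St.v (sq (1 + r)) (Sum.inr f) = St.d s (Sum.inr f)
          · obtain ⟨f, hf, hm⟩ := hm
            refine ⟨f, hf, ?_⟩
            rw [hpk]
            exact ⟨hf.1, hf.2.1, Or.inl hm⟩
          · obtain ⟨f, hf, hmin⟩ := Set.exists_min_image T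
              (fun f : Fin m × Bool => 2 * (f.1 : ℕ) + f.2.toNat) (Set.toFinite _) hne
            refine ⟨f, hf, ?_⟩
            rw [hpk]
            refine ⟨hf.1, hf.2.1, Or.inr ?_⟩
            rintro f' hb hK ⟨h1, h2, h3⟩
            have h4 := hmin f' ⟨h1, h2, hK.trans hf.2.2⟩
            exact absurd h4 (not_le.2 hb)
        obtain ⟨f, hf, hp⟩ := hex
        have hlt : T'.ncard < T.ncard := by
          refine Set.ncard_lt_ncard ⟨hsub, fun h => ?_⟩ (Set.toFinite _)
          have h1 := (hmono1 f (h hf).2.1).2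
          rw [h1] at hp
          exact Bool.noConfusion hp
        omega
      · have h1 : T' = ∅ := by
          rw [Set.eq_empty_iff_forall_notMem]
          exact fun f hf => hne ⟨f, hsub hf⟩
        rw [h1, Set.ncard_empty]
        exact Nat.zero_le _
  intro f hf hK
  have h1 := hcount (2 * w) le_rfl
  rw [Nat.sub_self, Nat.le_zero, Set.ncard_eq_zero (Set.toFinite _)] at h1
  by_contra hcon
  have h2 : f ∈ (∅ : Set (Fin m × Bool)) := by
    rw [← h1]
    refine ⟨hf, ?_, hK⟩
    have h3 : St.o (sq (2 * w + 1)) (Sum.inr f) = false := Bool.eq_false_of_not_eq_true hcon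
    rw [Nat.add_comm] at h3
    exact h3
  exact h2

theorem iterate_push {A : Acc α n m} {C : CompCircuit n m} {x : Fin n → Bool} {e : Arc n m}
    {z : α → Bool} (hz : A.Enc C x z) {L : ℕ} (hL : Fintype.card (Arc n m) ≤ 2 ^ L)
    {pick : (α → Bool) → (St n m → Bool) → Arc n m → Bool} {l : ℕ}
    (hP : ∀ s a, pick z s a = pickB 0 l (encode C x e) s a)
    {s : St n m → Bool} (h : PhInv C x l s) (r : ℕ) :
    PhInv C x l ((pushB A L pick z)^[r] s) ∧
    (∀ f, St.d ((pushB A L pick z)^[r] s) f = St.d s f) ∧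
    ∀ g, GateOK C (St.v s) (St.o s) (St.d s) g →
      GateOK C (St.v ((pushB A L pick z)^[r] s)) (St.o ((pushB A L pick z)^[r] s))
        (St.d ((pushB A L pick z)^[r] s)) g := by
  induction r with
  | zero => exact ⟨h, fun _ => rfl, fun _ hg => hg⟩
  | succ r ih =>
    obtain ⟨ih1, ih2, ih3⟩ := ih
    rw [Function.iterate_succ_apply']
    have h1 := ih1.push hz hL hP
    exact ⟨h1.1, fun f => by rw [pushB_d, ih2], fun g hg => h1.2 g (ih3 g hg)⟩

end Pool.Agent.LibCCV
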