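import Pool.Agent.LibCCV.Machine

/-!
Running the machine, reading off the output, monotonicity of valuations.
-/

namespace Pool.Agent.LibCCV

open Relation Pool.Agent.LibCC

variable {n m : ℕ} {α : Type}

/-! ### Monotonicity -/

theorem comb_mono (b c a s a' s' : Bool) (h1 : a ≠ b → a' ≠ b) (h2 : s ≠ b → s' ≠ b)
    (h : comb c a s ≠ b) : comb c a' s' ≠ b := by
  revert h1 h2 h
  revert b c a s a' s'
  decide

/-- If closed arcs deliver `b`, a value different from `b` is also different from `b` in the
true valuation. -/
theorem ValD.mono {C : CompCircuit n m} {x : Fin n → Bool} {b : Bool}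
    {O u v : Arc n m → Bool} (hu : ValD C x O (fun _ => b) u) (hv : C.IsVal x v) :
    ∀ e, u e ≠ b → v e ≠ b := by
  obtain ⟨ord, hord⟩ := C.acyclic
  have hgate : ∀ g c, v (Sum.inr (g, c)) = comb c (v (C.inp (g, false))) (v (C.inp (g, true))) := by
    intro g c
    cases c
    · rw [hv.conj]; rfl
    · rw [hv.disj]; rfl
  have key : ∀ k : ℕ, ∀ g, ord g < k → ∀ c, u (Sum.inr (g, c)) ≠ b → v (Sum.inr (g, c)) ≠ b := by
    intro k
    induction k with
    | zero => intro g hg; omega
    | succ k ih =>
      intro g hg c hne
      rw [hgate]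
      rw [hu.gate] at hne
      have hin : ∀ i, seeD u O (fun _ => b) (C.inp (g, i)) ≠ b → v (C.inp (g, i)) ≠ b := by
        intro i hi
        by_cases hO : O (C.inp (g, i)) = true
        · have h1 : seeD u O (fun _ => b) (C.inp (g, i)) = u (C.inp (g, i)) := by
            simp [seeD, hO]
          rw [h1] at hi
          rcases hb : C.inp (g, i) with j | ⟨a, c'⟩
          · rw [hb] at hi
            rw [hv.source, ← hu.source]
            exact hi
          · rw [hb] at hi
            exact ih a (by have := hord g i a c' hb; omega) c' hi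
        · exfalso
          apply hi
          simp [seeD, hO]
      exact comb_mono b c _ _ _ _ (hin false) (hin true) hne
  intro e he
  rcases e with i | ⟨g, c⟩
  · rw [hv.source, ← hu.source]
    exact he
  · exact key (ord g + 1) g (Nat.lt_succ_self _) c he

theorem exists_valD (C : CompCircuit n m) (x : Fin n → Bool) (O δ : Arc n m → Bool) :
    ∃ u, ValD C x O δ u := by
  obtain ⟨ord, hord⟩ := C.acyclic
  exact ⟨_, roundD_valD (C := C) (x := x) (O := O) (δ := δ) ord
    (Finset.univ.sup ord + 1) (fun g => Nat.lt_succ_of_le (Finset.le_sup (Finset.mem_univ g)))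
    (fun g b h c hg _ => hord g b h c hg) (fun _ => false)⟩

theorem ValD.unique {C : CompCircuit n m} {x : Fin n → Bool}
    {O δ u u' : Arc n m → Bool} (h : ValD C x O δ u) (h' : ValD C x O δ u') : u = u' := by
  obtain ⟨ord, hord⟩ := C.acyclic
  have key : ∀ k : ℕ, ∀ g, ord g < k → ∀ c, u (Sum.inr (g, c)) = u' (Sum.inr (g, c)) := by
    intro k
    induction k with
    | zero => intro g hg; omega
    | succ k ih =>
      intro g hg c
      have hin : ∀ b, seeD u O δ (C.inp (g, b)) = seeD u' O δ (C.inp (g, b)) := by
        intro b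
        have hval : u (C.inp (g, b)) = u' (C.inp (g, b)) := by
          rcases hb : C.inp (g, b) with i | ⟨a, c'⟩
          · rw [h.source, h'.source]
          · exact ih a (by have := hord g b a c' hb; omega) c'
        simp only [seeD, hval]
      rw [h.gate, h'.gate, hin, hin]
  funext e
  rcases e with i | ⟨g, c⟩
  · rw [h.source, h'.source]
  · exact key (ord g + 1) g (Nat.lt_succ_self _) c

/-- Rounds of evaluation starting from the constant `b`: only the paths of arcs with true value
different from `b` matter. -/
theorem roundD_valD_mono {C : CompCircuit n m} {x : Fin n → Bool} {b : Bool}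
    {O v : Arc n m → Bool} (hv : C.IsVal x v)
    (lay : Fin m → ℕ) (d : ℕ) (hd : ∀ g, lay g < d)
    (hlay : ∀ g i h c, C.inp (g, i) = Sum.inr (h, c) → O (Sum.inr (h, c)) = true →
      v (Sum.inr (h, c)) ≠ b → lay h < lay g) :
    ValD C x O (fun _ => b) ((roundD C x O (fun _ => b))^[d + 1] (fun _ => b)) := by
  obtain ⟨u, hu⟩ := exists_valD C x O (fun _ => b)
  have hmono := hu.mono hv
  set F := roundD C x O (fun _ => b) with hF
  have h1 : ∀ k e, (F^[k] (fun _ => b)) e ≠ b → u e ≠ b := by
    intro k
    induction k with
    | zero => intro e he; exact absurd rfl he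
    | succ k ih =>
      intro e he
      rw [Function.iterate_succ_apply'] at he
      rcases e with i | ⟨g, c⟩
      · rw [hu.source]; exact he
      · rw [hu.gate]
        have hin : ∀ i, seeD (F^[k] (fun _ => b)) O (fun _ => b) (C.inp (g, i)) ≠ b →
            seeD u O (fun _ => b) (C.inp (g, i)) ≠ b := by
          intro i hi
          by_cases hO : O (C.inp (g, i)) = true
          · simp only [seeD, hO, if_true] at hi ⊢
            exact ih _ hi
          · exfalso
            apply hi
            simp [seeD, hO]
        exact comb_mono b c _ _ _ _ (hin false) (hin true) he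
  have h2 : ∀ k g, lay g < k → ∀ c, u (Sum.inr (g, c)) ≠ b →
      (F^[k + 1] (fun _ => b)) (Sum.inr (g, c)) ≠ b := by
    intro k
    induction k with
    | zero => intro g hg; omega
    | succ k ih =>
      intro g hg c hne
      rw [Function.iterate_succ_apply']
      rw [hu.gate] at hne
      have hin : ∀ i, seeD u O (fun _ => b) (C.inp (g, i)) ≠ b →
          seeD (F^[k + 1] (fun _ => b)) O (fun _ => b) (C.inp (g, i)) ≠ b := by
        intro i hi
        by_cases hO : O (C.inp (g, i)) = true
        · simp only [seeD, hO, if_true] at hi ⊢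
          rcases hb : C.inp (g, i) with j | ⟨a, c'⟩
          · rw [hb] at hi
            rw [Function.iterate_succ_apply']
            change x j ≠ b
            rw [← hu.source j]
            exact hi
          · rw [hb] at hi hO
            exact ih a (by
              have := hlay g i a c' hb hO (hmono _ hi)
              omega) c' hi
        · exfalso
          apply hi
          simp [seeD, hO]
      exact comb_mono b c _ _ _ _ (hin false) (hin true) hne
  have h3 : F^[d + 1] (fun _ => b) = u := by
    funext e
    rcases e with i | ⟨g, c⟩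
    · rw [Function.iterate_succ_apply']
      exact (hu.source i).symm
    · have h4 := h1 (d + 1) (Sum.inr (g, c))
      have h5 := h2 d g (hd g) c
      revert h4 h5
      cases (F^[d + 1] (fun _ => b)) (Sum.inr (g, c)) <;> cases u (Sum.inr (g, c)) <;>
        cases b <;> simp
  rw [h3]
  exact hu

/-! ### Rounds of the machine -/

theorem roundB_iterate {A : Acc α n m} {C : CompCircuit n m} {x : Fin n → Bool} {z : α → Bool}
    (hz : A.Enc C x z) (s : St n m → Bool) (r : ℕ) :
    St.o ((roundB A z)^[r] s) = St.o s ∧ St.d ((roundB A z)^[r] s) = St.d s ∧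
    St.v ((roundB A z)^[r] s) = (roundD C x (St.o s) (St.d s))^[r] (St.v s) := by
  induction r with
  | zero => exact ⟨rfl, rfl, rfl⟩
  | succ r ih =>
    obtain ⟨ih1, ih2, ih3⟩ := ih
    rw [Function.iterate_succ_apply']
    refine ⟨ih1, ih2, ?_⟩
    rw [Function.iterate_succ_apply', ← ih3]
    funext e
    rcases e with i | ⟨g, c⟩
    · exact hz.src i
    · change comb c _ _ = comb c _ _
      rw [seeB_eq hz, seeB_eq hz, ih1, ih2]

/-! ### Composition -/

theorem lev_rounds {V : Type} [Fintype V] (A : Acc α n m) {W L d : ℕ}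
    (hL : Fintype.card (Arc n m) ≤ 2 ^ L)
    (hW : Fintype.card (V × St n m) * 2 ^ (5 + L) ≤ W) {f : (α → Bool) → V × St n m → Bool}
    (h : Lev α W d (V × St n m) f) (r : ℕ) :
    Lev α W (d + r * (6 + L)) (V × St n m) (fun x => par ((roundB A x)^[r]) (f x)) := by
  induction r with
  | zero =>
    have e : (fun x => par (V := V) ((roundB A x)^[0]) (f x)) = f := rfl
    rw [e]
    simpa using h
  | succ r ih =>
    have h1 := lev_round A hL hW ih
    have e : d + r * (6 + L) + (6 + L) = d + (r + 1) * (6 + L) := by ring
    rw [e] at h1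
    have e2 : (fun x => par (V := V) ((roundB A x)^[r + 1]) (f x)) =
        fun x => par (roundB A x) (par ((roundB A x)^[r]) (f x)) := by
      funext x p
      simp only [par]
      rw [Function.iterate_succ_apply']
    rw [e2]
    exact h1

/-- Run the stages `G 0, G 1, ...`. -/
def runG {S : Type} (G : ℕ → (α → Bool) → (S → Bool) → S → Bool) (z : α → Bool)
    (s : S → Bool) : ℕ → S → Bool
  | 0 => s
  | j + 1 => G j z (runG G z s j)

theorem lev_runG {S : Type} {W κ : ℕ} (G : ℕ → (α → Bool) → (S → Bool) → S → Bool)
    (hG : ∀ j d (f : (α → Bool) → S → Bool), Lev α W d S f →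
      Lev α W (d + κ) S (fun x => G j x (f x)))
    {d : ℕ} {f : (α → Bool) → S → Bool} (h : Lev α W d S f) (r : ℕ) :
    Lev α W (d + r * κ) S (fun x => runG G x (f x) r) := by
  induction r with
  | zero => simpa [runG] using h
  | succ r ih =>
    have h1 := hG r _ _ ih
    have e : d + r * κ + κ = d + (r + 1) * κ := by ring
    rw [e] at h1
    exact h1

theorem lev_init {S : Type} [Fintype S] {W : ℕ} (init : (α → Bool) → S → Bool)
    (hinit : ∀ t, FD 0 (fun y : α ⊕ Empty → Bool => init (fun a => y (Sum.inl a)) t))
    (hW : Fintype.card S ≤ W) :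
    Lev α W 1 S (fun x => init x) := by
  have h0 : Lev α W 0 Empty (fun _ e => e.elim) := Lev.base
  have := Lev.formula (k := 0) (γ := S)
    (fun t (y : α ⊕ Empty → Bool) => init (fun a => y (Sum.inl a)) t) hinit
    (by simpa using hW) h0
  simpa using this

theorem circuit_of_lev {V : Type} {W L d D : ℕ} (hL : Fintype.card (Arc n m) ≤ 2 ^ L)
    {F : (α → Bool) → V × St n m → Bool} (hF : Lev α W d (V × St n m) F) (v0 : V)
    (q : Arc n m → α) (hW : 2 ^ (1 + L) ≤ W) (hD : d + (2 + L) ≤ D) :
    ∃ B : BCircuit α W, ∃ o : Fin W, ∀ x, B.level x D o =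
      decide (∃ e, (x (q e) && F x (v0, Sum.inl (Sum.inl e))) = true) := by
  have h1 := Lev.formula (k := 1 + L) (γ := Unit)
    (fun _ (y : α ⊕ (V × St n m) → Bool) =>
      decide (∃ e, (y (Sum.inl (q e)) && y (Sum.inr (v0, Sum.inl (Sum.inl e)))) = true)) ?_
    (by simpa using hW) hF
  · have h5 : ∀ r, Lev α W (d + (1 + L) + 1 + r) Unit
        (fun x _ => decide (∃ e, (x (q e) && F x (v0, Sum.inl (Sum.inl e))) = true)) := by
      intro r
      induction r with
      | zero => exact h1
      | succ r ih =>
        refine Lev.step ih Unit ?_ (fun u => .wire (Sum.inr u))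
        have : 0 < 2 ^ (1 + L) := by positivity
        simp only [Fintype.card_unit]
        omega
    obtain ⟨r, hr⟩ := Nat.exists_eq_add_of_le hD
    have e : D = d + (1 + L) + 1 + r := by omega
    subst e
    obtain ⟨B, o, hB⟩ := (h5 r).toCircuit
    exact ⟨B, o (), fun x => hB x ()⟩
  · intro _
    exact FD.exists (k := 1) L hL (fun (e : Arc n m) (y : α ⊕ (V × St n m) → Bool) =>
      (y (Sum.inl (q e)) && y (Sum.inr (v0, Sum.inl (Sum.inl e)))))
      (fun _ => (FD.var 0 _).and (FD.var 0 _))

theorem exists_val (C : CompCircuit n m) (x : Fin n → Bool) : ∃! v, C.IsVal x v := by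
  obtain ⟨u, hu⟩ := exists_valD C x (fun _ => true) (fun _ => true)
  exact ⟨u, hu.isVal (fun _ => rfl), fun v hv => hv.unique (hu.isVal (fun _ => rfl))⟩

end Pool.Agent.LibCCV
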